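import Mathlib
import Pool.Agent.Helper27.Har.P_global_ode
import Pool.Agent.Q64.AC

/-!
# Sharp velocity bounds for damped linear oscillators in dimension `d`
-/

set_option autoImplicit false

open Filter Topology Set MeasureTheory
open scoped ENNReal

namespace Pool.Agent.Results.MP_38ba9c_an.SharpVelocity

/-! ### Kernels -/

/-- The impulse response `g` and its derivative `h`. -/
structure Ker (c lam : ℝ) (g h : ℝ → ℝ) : Prop where
  g0 : g 0 = 0
  h0 : h 0 = 1
  dg : ∀ t, HasDerivAt g (h t) t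
  dh : ∀ t, HasDerivAt h (-c * h t - lam * g t) t

/-- The excess of the kernel over `exp (-ct)`. -/
noncomputable def ex (c : ℝ) (h : ℝ → ℝ) (t : ℝ) : ℝ := max (|h t| - Real.exp (-(c * t))) 0

lemma ex_nonneg (c : ℝ) (h : ℝ → ℝ) (t : ℝ) : 0 ≤ ex c h t := le_max_right _ _

lemma Ker.cont_h {c lam : ℝ} {g h : ℝ → ℝ} (k : Ker c lam g h) : Continuous h :=
  continuous_iff_continuousAt.2 fun t => (k.dh t).continuousAt

lemma Ker.cont_g {c lam : ℝ} {g h : ℝ → ℝ} (k : Ker c lam g h) : Continuous g :=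
  continuous_iff_continuousAt.2 fun t => (k.dg t).continuousAt

lemma ex_cont {c : ℝ} {h : ℝ → ℝ} (hh : Continuous h) : Continuous (ex c h) := by
  unfold ex
  fun_prop

/-- As long as `g ≥ 0`, the velocity kernel is below `exp (-ct)`. -/
lemma Ker.h_le {c lam T : ℝ} {g h : ℝ → ℝ} (k : Ker c lam g h) (hlam : 0 ≤ lam) (hT : 0 ≤ T)
    (hg : ∀ t ∈ Icc 0 T, 0 ≤ g t) : h T ≤ Real.exp (-(c * T)) := by
  have hD : ∀ t, HasDerivAt (fun t => Real.exp (c * t) * h t)
      (-(lam * Real.exp (c * t) * g t)) t := by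
    intro t
    have h1 : HasDerivAt (fun t : ℝ => c * t) c t := by simpa using (hasDerivAt_id t).const_mul c
    refine (h1.exp.fun_mul (k.dh t)).congr_deriv ?_
    ring
  have hanti : AntitoneOn (fun t => Real.exp (c * t) * h t) (Icc 0 T) := by
    apply antitoneOn_of_deriv_nonpos (convex_Icc 0 T)
    · exact fun t _ => (hD t).continuousAt.continuousWithinAt
    · exact fun t _ => (hD t).differentiableAt.differentiableWithinAt
    · intro t ht
      rw [interior_Icc] at ht
      rw [(hD t).deriv]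
      have := hg t ⟨ht.1.le, ht.2.le⟩
      have h2 : 0 ≤ lam * Real.exp (c * t) * g t := by positivity
      linarith
  have h1 := hanti ⟨le_rfl, hT⟩ ⟨hT, le_rfl⟩ hT
  simp only [mul_zero, Real.exp_zero, one_mul, k.h0] at h1
  rw [Real.exp_neg]
  rw [← one_div, le_div_iff₀ (Real.exp_pos _)]
  linarith

lemma integral_exp_le {c S : ℝ} (hc : 0 < c) (_hS : 0 ≤ S) :
    ∫ t in (0 : ℝ)..S, Real.exp (-(c * t)) ≤ 1 / c := by
  have h1 : ∀ t ∈ uIcc 0 S, HasDerivAt (fun t => -(1 / c) * Real.exp (-(c * t)))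
      (Real.exp (-(c * t))) t := by
    intro t _
    have h2 : HasDerivAt (fun t : ℝ => -(c * t)) (-c) t := by
      simpa using ((hasDerivAt_id t).const_mul c).fun_neg
    refine (h2.exp.const_mul (-(1 / c))).congr_deriv ?_
    field_simp
  rw [intervalIntegral.integral_eq_sub_of_hasDerivAt h1
    (Continuous.intervalIntegrable (by fun_prop) _ _)]
  simp only [mul_zero, neg_zero, Real.exp_zero, mul_one]
  have : 0 < 1 / c * Real.exp (-(c * S)) := by positivity
  linarith

/-- The excess estimate when `g ≥ 0` (overdamped and critically damped case). -/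
lemma Ker.ex_le_of_nonneg {c lam S : ℝ} {g h : ℝ → ℝ} (k : Ker c lam g h) (hc : 0 < c)
    (hlam : 0 ≤ lam) (hS : 0 ≤ S) (hg : ∀ t, 0 ≤ t → 0 ≤ g t) :
    ∫ t in (0 : ℝ)..S, ex c h t ≤ 1 / c := by
  have h1 : ∀ t ∈ Icc 0 S, ex c h t ≤ Real.exp (-(c * t)) - h t := by
    intro t ht
    have h2 := k.h_le hlam ht.1 fun s hs => hg s hs.1
    unfold ex
    apply max_le
    · rcases abs_cases (h t) with h3 | h3
      · rw [h3.1]; linarith
      · rw [h3.1]
        have := Real.exp_pos (-(c * t))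
        linarith
    · linarith
  have h2 : ∫ t in (0 : ℝ)..S, ex c h t ≤ ∫ t in (0 : ℝ)..S, (Real.exp (-(c * t)) - h t) := by
    apply intervalIntegral.integral_mono_on hS
    · exact (ex_cont k.cont_h).intervalIntegrable _ _
    · exact Continuous.intervalIntegrable (by have := k.cont_h; fun_prop) _ _
    · exact h1
  refine h2.trans ?_
  rw [intervalIntegral.integral_sub (Continuous.intervalIntegrable (by fun_prop) _ _)
    (k.cont_h.intervalIntegrable _ _)]
  rw [intervalIntegral.integral_eq_sub_of_hasDerivAt (fun t _ => k.dg t)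
    (k.cont_h.intervalIntegrable _ _), k.g0]
  have := integral_exp_le hc hS
  have := hg S hS
  linarith

/-! ### The overdamped kernel -/

/-- `g` for roots `-μ₁, -μ₂`. -/
noncomputable def go (m₁ m₂ t : ℝ) : ℝ := (Real.exp (-(m₁ * t)) - Real.exp (-(m₂ * t))) / (m₂ - m₁)

/-- `h` for roots `-μ₁, -μ₂`. -/
noncomputable def ho (m₁ m₂ t : ℝ) : ℝ :=
  (m₂ * Real.exp (-(m₂ * t)) - m₁ * Real.exp (-(m₁ * t))) / (m₂ - m₁)

lemma hasDerivAt_exp_neg_mul (m t : ℝ) :
    HasDerivAt (fun t => Real.exp (-(m * t))) (-(m * Real.exp (-(m * t)))) t := by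
  have h2 : HasDerivAt (fun t : ℝ => -(m * t)) (-m) t := by
    simpa using ((hasDerivAt_id t).const_mul m).fun_neg
  refine h2.exp.congr_deriv ?_
  ring

lemma ker_o {m₁ m₂ : ℝ} (h : m₁ < m₂) : Ker (m₁ + m₂) (m₁ * m₂) (go m₁ m₂) (ho m₁ m₂) := by
  have h0 : m₂ - m₁ ≠ 0 := by linarith
  refine ⟨?_, ?_, fun t => ?_, fun t => ?_⟩
  · simp [go]
  · simp only [ho, mul_zero, neg_zero, Real.exp_zero, mul_one]
    exact div_self h0
  · unfold go
    refine (((hasDerivAt_exp_neg_mul m₁ t).fun_sub (hasDerivAt_exp_neg_mul m₂ t)).div_const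
      (m₂ - m₁)).congr_deriv ?_
    unfold ho
    ring
  · unfold ho
    refine ((((hasDerivAt_exp_neg_mul m₂ t).const_mul m₂).fun_sub
      ((hasDerivAt_exp_neg_mul m₁ t).const_mul m₁)).div_const (m₂ - m₁)).congr_deriv ?_
    unfold go
    field_simp
    ring

lemma go_nonneg {m₁ m₂ : ℝ} (h : m₁ < m₂) {t : ℝ} (ht : 0 ≤ t) : 0 ≤ go m₁ m₂ t := by
  unfold go
  apply div_nonneg _ (by linarith)
  have : Real.exp (-(m₂ * t)) ≤ Real.exp (-(m₁ * t)) := by
    apply Real.exp_le_exp.2
    nlinarith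
  linarith

lemma tendsto_exp_neg_mul {m : ℝ} (hm : 0 < m) :
    Tendsto (fun t => Real.exp (-(m * t))) atTop (𝓝 0) :=
  Real.tendsto_exp_neg_atTop_nhds_zero.comp (tendsto_id.const_mul_atTop hm)

lemma tendsto_go {m₁ m₂ : ℝ} (h1 : 0 < m₁) (h2 : 0 < m₂) : Tendsto (go m₁ m₂) atTop (𝓝 0) := by
  have := ((tendsto_exp_neg_mul h1).sub (tendsto_exp_neg_mul h2)).div_const (m₂ - m₁)
  rw [sub_zero, zero_div] at this
  exact this

lemma tendsto_ho {m₁ m₂ : ℝ} (h1 : 0 < m₁) (h2 : 0 < m₂) : Tendsto (ho m₁ m₂) atTop (𝓝 0) := by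
  have := (((tendsto_exp_neg_mul h2).const_mul m₂).sub
    ((tendsto_exp_neg_mul h1).const_mul m₁)).div_const (m₂ - m₁)
  rw [mul_zero, mul_zero, sub_zero, zero_div] at this
  exact this

/-! ### The critical kernel -/

lemma ker_c (a : ℝ) : Ker (2 * a) (a ^ 2) (fun t => t * Real.exp (-(a * t)))
    (fun t => (1 - a * t) * Real.exp (-(a * t))) := by
  refine ⟨by simp, by simp, fun t => ?_, fun t => ?_⟩
  · refine ((hasDerivAt_id t).fun_mul (hasDerivAt_exp_neg_mul a t)).congr_deriv ?_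
    simp only [id]
    ring
  · have h1 : HasDerivAt (fun t : ℝ => 1 - a * t) (-a) t := by
      simpa using ((hasDerivAt_id t).const_mul a).const_sub 1
    refine (h1.fun_mul (hasDerivAt_exp_neg_mul a t)).congr_deriv ?_
    ring

lemma tendsto_gc {a : ℝ} (ha : 0 < a) :
    Tendsto (fun t => t * Real.exp (-(a * t))) atTop (𝓝 0) := by
  have h1 := (Real.tendsto_pow_mul_exp_neg_atTop_nhds_zero 1).comp
    (tendsto_id.const_mul_atTop ha)
  have h2 := h1.const_mul (1 / a)
  rw [mul_zero] at h2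
  refine h2.congr fun t => ?_
  simp only [Function.comp, id, pow_one]
  field_simp

lemma tendsto_hc {a : ℝ} (ha : 0 < a) :
    Tendsto (fun t => (1 - a * t) * Real.exp (-(a * t))) atTop (𝓝 0) := by
  have h1 := (tendsto_exp_neg_mul ha).sub ((tendsto_gc ha).const_mul a)
  rw [mul_zero, sub_zero] at h1
  refine h1.congr fun t => ?_
  ring

/-! ### The underdamped kernel -/

/-- `g` in the underdamped case. -/
noncomputable def gu (a w t : ℝ) : ℝ := Real.exp (-(a * t)) * Real.sin (w * t) / w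

/-- `h` in the underdamped case. -/
noncomputable def hu (a w t : ℝ) : ℝ :=
  Real.exp (-(a * t)) * (Real.cos (w * t) - a / w * Real.sin (w * t))

lemma ker_u {a w : ℝ} (hw : 0 < w) : Ker (2 * a) (a ^ 2 + w ^ 2) (gu a w) (hu a w) := by
  have hs : ∀ t, HasDerivAt (fun t => Real.sin (w * t)) (w * Real.cos (w * t)) t := fun t => by
    have h1 : HasDerivAt (fun t : ℝ => w * t) w t := by simpa using (hasDerivAt_id t).const_mul w
    exact h1.sin.congr_deriv (by ring)
  have hcs : ∀ t, HasDerivAt (fun t => Real.cos (w * t)) (-(w * Real.sin (w * t))) t := fun t => by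
    have h1 : HasDerivAt (fun t : ℝ => w * t) w t := by simpa using (hasDerivAt_id t).const_mul w
    exact h1.cos.congr_deriv (by ring)
  refine ⟨by simp [gu], by simp [hu], fun t => ?_, fun t => ?_⟩
  · unfold gu
    refine (((hasDerivAt_exp_neg_mul a t).fun_mul (hs t)).div_const w).congr_deriv ?_
    unfold hu
    field_simp
    ring
  · unfold hu
    refine ((hasDerivAt_exp_neg_mul a t).fun_mul
      ((hcs t).fun_sub ((hs t).const_mul (a / w)))).congr_deriv ?_
    unfold gu
    field_simp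
    ring

lemma tendsto_bdd {a : ℝ} (ha : 0 < a) {F : ℝ → ℝ} {C : ℝ} (hF : ∀ t, |F t| ≤ C) :
    Tendsto (fun t => Real.exp (-(a * t)) * F t) atTop (𝓝 0) := by
  refine squeeze_zero_norm (fun t => ?_) (show Tendsto (fun t => Real.exp (-(a * t)) * C) atTop
    (𝓝 0) from by simpa using (tendsto_exp_neg_mul ha).mul_const C)
  rw [norm_mul, Real.norm_eq_abs, Real.norm_eq_abs, abs_of_pos (Real.exp_pos _)]
  gcongr
  exact hF t

lemma tendsto_gu {a w : ℝ} (ha : 0 < a) (hw : 0 < w) : Tendsto (gu a w) atTop (𝓝 0) := by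
  have := tendsto_bdd ha (F := fun t => Real.sin (w * t) / w) (C := 1 / w) (fun t => by
    rw [abs_div, abs_of_pos hw]
    gcongr
    exact Real.abs_sin_le_one _)
  refine this.congr fun t => ?_
  unfold gu
  ring

lemma tendsto_hu {a w : ℝ} (ha : 0 < a) (hw : 0 < w) : Tendsto (hu a w) atTop (𝓝 0) := by
  refine tendsto_bdd ha (F := fun t => Real.cos (w * t) - a / w * Real.sin (w * t))
    (C := 1 + a / w) (fun t => ?_)
  have h1 := Real.abs_cos_le_one (w * t)
  have h2 := Real.abs_sin_le_one (w * t)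
  calc |Real.cos (w * t) - a / w * Real.sin (w * t)| ≤
      |Real.cos (w * t)| + |a / w * Real.sin (w * t)| := abs_sub _ _
    _ = |Real.cos (w * t)| + a / w * |Real.sin (w * t)| := by
      rw [abs_mul, abs_of_pos (by positivity : 0 < a / w)]
    _ ≤ 1 + a / w * 1 := by gcongr
    _ = 1 + a / w := by ring

/-- The first zero of `hu`. -/
noncomputable def T₁ (a w : ℝ) : ℝ := Real.arctan (w / a) / w

/-- The amplitude. -/
noncomputable def RR (a w : ℝ) : ℝ := √(1 + (a / w) ^ 2)

lemma hu_eq {a w : ℝ} (ha : 0 < a) (hw : 0 < w) (t : ℝ) :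
    hu a w t = RR a w * Real.exp (-(a * t)) * Real.sin (w * (T₁ a w - t)) := by
  have h1 : w * (T₁ a w - t) = Real.arctan (w / a) - w * t := by
    unfold T₁
    field_simp
  rw [h1, Real.sin_sub, Real.sin_arctan, Real.cos_arctan]
  have h2 : √(1 + (w / a) ^ 2) = w / a * RR a w := by
    unfold RR
    rw [← Real.sqrt_sq (by positivity : 0 ≤ w / a), ← Real.sqrt_mul (by positivity)]
    congr 1
    rw [Real.sqrt_sq (by positivity : 0 ≤ w / a)]
    field_simp
    ring
  have h3 : 0 < RR a w := by unfold RR; positivity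
  rw [h2]
  unfold hu
  field_simp

lemma RR_ge_one (a w : ℝ) : 1 ≤ RR a w := by
  unfold RR
  rw [Real.one_le_sqrt]
  have := sq_nonneg (a / w)
  linarith

lemma T₁_nonneg {a w : ℝ} (ha : 0 < a) (hw : 0 < w) : 0 ≤ T₁ a w := by
  unfold T₁
  have : 0 ≤ Real.arctan (w / a) := Real.arctan_nonneg.2 (by positivity)
  positivity

lemma wT₁ {a w : ℝ} (hw : 0 < w) : w * T₁ a w = Real.arctan (w / a) := by
  unfold T₁
  field_simp

/-- No excess before the first zero of `h`. -/
lemma ex_u_zero {a w : ℝ} (ha : 0 < a) (hw : 0 < w) {t : ℝ} (ht : t ∈ Icc 0 (T₁ a w)) :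
    ex (2 * a) (hu a w) t = 0 := by
  have hat := Real.arctan_lt_pi_div_two (w / a)
  have hT := wT₁ (a := a) hw
  have hg : ∀ s ∈ Icc 0 t, 0 ≤ gu a w s := by
    intro s hs
    unfold gu
    have h1 : w * s ≤ Real.pi := by
      have : w * s ≤ w * T₁ a w := by gcongr; exact hs.2.trans ht.2
      rw [hT] at this
      linarith [Real.pi_pos]
    have h2 : 0 ≤ Real.sin (w * s) :=
      Real.sin_nonneg_of_nonneg_of_le_pi (mul_nonneg hw.le hs.1) h1
    positivity
  have h1 := (ker_u (a := a) hw).h_le (by positivity) ht.1 hg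
  have h2 : 0 ≤ hu a w t := by
    rw [hu_eq ha hw]
    have h3 : 0 ≤ w * (T₁ a w - t) := mul_nonneg hw.le (by linarith [ht.2])
    have h4 : w * (T₁ a w - t) ≤ Real.pi := by
      rw [mul_sub, hT]
      have : 0 ≤ w * t := mul_nonneg hw.le ht.1
      linarith [Real.pi_pos]
    have h5 : 0 ≤ Real.sin (w * (T₁ a w - t)) := Real.sin_nonneg_of_nonneg_of_le_pi h3 h4
    have h6 := RR_ge_one a w
    positivity
  unfold ex
  rw [abs_of_nonneg h2]
  exact max_eq_right (by linarith)

lemma ex_u_split {a w : ℝ} (ha : 0 < a) (hw : 0 < w) {S B : ℝ}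
    (hB : ∀ S', T₁ a w ≤ S' → ∫ t in (T₁ a w)..S', ex (2 * a) (hu a w) t ≤ B) :
    ∫ t in (0 : ℝ)..S, ex (2 * a) (hu a w) t ≤ B := by
  have hc := ex_cont (c := 2 * a) (ker_u (a := a) hw).cont_h
  have hT := T₁_nonneg ha hw
  have h1 : ∫ t in (0 : ℝ)..S, ex (2 * a) (hu a w) t ≤
      ∫ t in (0 : ℝ)..(max S (T₁ a w)), ex (2 * a) (hu a w) t := by
    rw [← intervalIntegral.integral_add_adjacent_intervals (b := S)
      (hc.intervalIntegrable 0 S) (hc.intervalIntegrable S (max S (T₁ a w)))]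
    have : 0 ≤ ∫ t in S..(max S (T₁ a w)), ex (2 * a) (hu a w) t :=
      intervalIntegral.integral_nonneg (le_max_left _ _) fun t _ => ex_nonneg _ _ _
    linarith
  refine h1.trans ?_
  rw [← intervalIntegral.integral_add_adjacent_intervals (b := T₁ a w)
      (hc.intervalIntegrable _ _) (hc.intervalIntegrable _ _)]
  have h2 : ∫ t in (0 : ℝ)..(T₁ a w), ex (2 * a) (hu a w) t = 0 := by
    rw [intervalIntegral.integral_congr (g := fun _ => (0 : ℝ))]
    · simp
    · intro t ht
      rw [uIcc_of_le hT] at ht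
      exact ex_u_zero ha hw ht
  rw [h2, zero_add]
  exact hB _ (le_max_right _ _)

lemma one_le_arctan {x : ℝ} (hx : 8 / 5 ≤ x) : 1 ≤ Real.arctan x := by
  have hc : (17 / 32 : ℝ) ≤ Real.cos 1 := by
    have h1 : Real.cos 1 = 2 * Real.cos (1 / 2) ^ 2 - 1 := by
      rw [← Real.cos_two_mul]; norm_num
    have h2 : (7 / 8 : ℝ) ≤ Real.cos (1 / 2) := by
      have := Real.one_sub_sq_div_two_le_cos (x := 1 / 2)
      norm_num at this ⊢
      linarith
    rw [h1]
    nlinarith
  have ht : Real.tan 1 ≤ 8 / 5 := by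
    rw [Real.tan_eq_sin_div_cos, div_le_iff₀ (by linarith)]
    have h1 := Real.sin_sq_add_cos_sq 1
    apply le_of_sq_le_sq _ (by nlinarith)
    nlinarith
  have h1 : Real.arctan (Real.tan 1) = 1 := by
    apply Real.arctan_tan <;> linarith [Real.pi_gt_three]
  rw [← h1]
  exact Real.arctan_strictMono.monotone (ht.trans hx)

/-- The excess estimate, strongly underdamped case. -/
lemma ex_u_strong {a w : ℝ} (ha : 0 < a) (hw : 0 < w) (hwa : 8 / 5 ≤ w / a) {S : ℝ} : ∫ t in (0 : ℝ)..S, ex (2 * a) (hu a w) t ≤ 1 / (2 * a) := by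
  refine ex_u_split ha hw fun S' hS' => ?_
  have hT := T₁_nonneg ha hw
  set T := T₁ a w with hTdef
  set R := RR a w with hR
  have hR1 : 1 ≤ R := RR_ge_one a w
  set ν := a / w with hν
  have hν0 : 0 < ν := by positivity
  have hR2 : R ^ 2 = 1 + ν ^ 2 := by
    rw [hR, RR, Real.sq_sqrt (by positivity)]
  set X := Real.exp (-(a * T)) with hX
  have hX0 : 0 < X := Real.exp_pos _
  have hX1 : X ≤ R - ν := by
    have h1 : ν ≤ a * T := by
      have h2 := wT₁ (a := a) hw
      have h3 := one_le_arctan hwa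
      rw [← h2] at h3
      rw [hν, div_le_iff₀ hw]
      calc a = a * 1 := (mul_one a).symm
        _ ≤ a * (w * T₁ a w) := by gcongr
        _ = a * T * w := by rw [hTdef]; ring
    have h2 : X ≤ Real.exp (-ν) := Real.exp_le_exp.2 (by linarith)
    have h3 : R + ν ≤ Real.exp ν := by
      rw [← Real.cosh_add_sinh]
      have h4 : ν ≤ Real.sinh ν := Real.self_le_sinh_iff.2 hν0.le
      have h5 : R ≤ Real.cosh ν := by
        apply le_of_sq_le_sq _ (Real.cosh_pos ν).le
        rw [hR2, Real.cosh_sq]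
        nlinarith
      linarith
    have h4 : Real.exp (-ν) * Real.exp ν = 1 := by rw [← Real.exp_add]; simp
    have h5 : Real.exp (-ν) * (R + ν) ≤ (R - ν) * (R + ν) := by
      have h6 : Real.exp (-ν) * (R + ν) ≤ Real.exp (-ν) * Real.exp ν := by gcongr
      nlinarith
    exact h2.trans (le_of_mul_le_mul_right h5 (by positivity))
  have hkey : 0 ≤ X ^ 2 - 2 * R * X + 1 := by
    nlinarith [mul_nonneg (sub_nonneg.2 hX1) (by linarith : 0 ≤ R + ν - X)]
  -- the integrand
  have hpt : ∀ t ∈ Icc T S', ex (2 * a) (hu a w) t ≤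
      R * Real.exp (-(a * t)) - Real.exp (-(2 * a * t)) := by
    intro t ht
    have ht0 : 0 ≤ t := hT.trans ht.1
    have h1 : |hu a w t| ≤ R * Real.exp (-(a * t)) := by
      rw [hu_eq ha hw, abs_mul, abs_of_nonneg (by positivity)]
      calc R * Real.exp (-(a * t)) * |Real.sin (w * (T₁ a w - t))| ≤
          R * Real.exp (-(a * t)) * 1 := by
            gcongr
            exact Real.abs_sin_le_one _
        _ = _ := mul_one _
    have h2 : Real.exp (-(2 * a * t)) ≤ R * Real.exp (-(a * t)) := by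
      have h3 : Real.exp (-(2 * a * t)) ≤ Real.exp (-(a * t)) := by
        apply Real.exp_le_exp.2
        nlinarith [mul_nonneg ha.le ht0]
      nlinarith [Real.exp_pos (-(a * t))]
    unfold ex
    apply max_le <;> linarith
  have hint : ∫ t in T..S', ex (2 * a) (hu a w) t ≤
      ∫ t in T..S', (R * Real.exp (-(a * t)) - Real.exp (-(2 * a * t))) := by
    apply intervalIntegral.integral_mono_on hS'
    · exact (ex_cont (ker_u (a := a) hw).cont_h).intervalIntegrable _ _
    · exact Continuous.intervalIntegrable (by fun_prop) _ _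
    · exact hpt
  refine hint.trans ?_
  have hF : ∀ t ∈ uIcc T S', HasDerivAt (fun t => -(R / a) * Real.exp (-(a * t)) +
      1 / (2 * a) * Real.exp (-(2 * a * t)))
      (R * Real.exp (-(a * t)) - Real.exp (-(2 * a * t))) t := by
    intro t _
    refine (((hasDerivAt_exp_neg_mul a t).const_mul (-(R / a))).fun_add
      ((hasDerivAt_exp_neg_mul (2 * a) t).const_mul (1 / (2 * a)))).congr_deriv ?_
    field_simp
    ring
  rw [intervalIntegral.integral_eq_sub_of_hasDerivAt hF
    (Continuous.intervalIntegrable (by fun_prop) _ _)]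
  set Y := Real.exp (-(a * S')) with hY
  have hY0 : 0 < Y := Real.exp_pos _
  have hY1 : Y ≤ 1 := by
    rw [hY]; apply Real.exp_le_one_iff.2
    nlinarith [mul_nonneg ha.le (hT.trans hS')]
  have e1 : Real.exp (-(2 * a * T)) = X ^ 2 := by
    rw [hX, ← Real.exp_nat_mul]; congr 1; push_cast; ring
  have e2 : Real.exp (-(2 * a * S')) = Y ^ 2 := by
    rw [hY, ← Real.exp_nat_mul]; congr 1; push_cast; ring
  rw [e1, e2]
  have e3 : -(R / a) * Y + 1 / (2 * a) * Y ^ 2 - (-(R / a) * X + 1 / (2 * a) * X ^ 2) =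
      1 / (2 * a) * (1 - (X ^ 2 - 2 * R * X + 1) - Y * (2 * R - Y)) := by
    field_simp
    ring
  rw [e3]
  have h4 : 0 ≤ Y * (2 * R - Y) := mul_nonneg hY0.le (by linarith)
  calc 1 / (2 * a) * (1 - (X ^ 2 - 2 * R * X + 1) - Y * (2 * R - Y)) ≤ 1 / (2 * a) * 1 := by
        gcongr
        linarith
    _ = 1 / (2 * a) := mul_one _

/-- The integral of `exp (-as) |sin ws|`. -/
lemma integral_abs_sin {a w : ℝ} (ha : 0 < a) (hw : 0 < w) :
    IntegrableOn (fun s => Real.exp (-(a * s)) * |Real.sin (w * s)|) (Ioi 0) ∧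
    (∫ s in Ioi (0 : ℝ), Real.exp (-(a * s)) * |Real.sin (w * s)|) *
      (1 - Real.exp (-(a * (Real.pi / w)))) =
      w / (a ^ 2 + w ^ 2) * (1 + Real.exp (-(a * (Real.pi / w)))) := by
  set F : ℝ → ℝ := fun s => Real.exp (-(a * s)) * |Real.sin (w * s)| with hF
  have hFc : Continuous F := by rw [hF]; fun_prop
  have hint : IntegrableOn F (Ioi 0) := by
    have h1 := exp_neg_integrableOn_Ioi 0 ha
    refine Integrable.mono' h1 hFc.aestronglyMeasurable (Eventually.of_forall fun s => ?_)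
    rw [hF]
    simp only
    rw [norm_mul, Real.norm_eq_abs, abs_of_pos (Real.exp_pos _), Real.norm_eq_abs, abs_abs,
      neg_mul]
    calc Real.exp (-(a * s)) * |Real.sin (w * s)| ≤ Real.exp (-(a * s)) * 1 := by
          gcongr
          exact Real.abs_sin_le_one _
      _ = _ := mul_one _
  refine ⟨hint, ?_⟩
  set P := Real.pi / w with hP
  have hP0 : 0 < P := by have := Real.pi_pos; positivity
  set q := Real.exp (-(a * P)) with hq
  have hsplit : ∫ s in Ioi (0 : ℝ), F s = (∫ s in (0 : ℝ)..P, F s) + ∫ s in Ioi P, F s := by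
    rw [intervalIntegral.integral_of_le hP0.le, ← setIntegral_union]
    · rw [Ioc_union_Ioi_eq_Ioi hP0.le]
    · exact Ioc_disjoint_Ioi le_rfl
    · exact measurableSet_Ioi
    · exact hint.mono_set Ioc_subset_Ioi_self
    · exact hint.mono_set (Ioi_subset_Ioi hP0.le)
  have hshift : ∫ s in Ioi P, F s = q * ∫ s in Ioi (0 : ℝ), F s := by
    have h1 : ∫ s in Ioi (0 : ℝ), F (s + P) = ∫ s in Ioi P, F s := by
      rw [← integral_indicator measurableSet_Ioi, ← integral_indicator measurableSet_Ioi,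
        ← integral_add_right_eq_self (fun s => (Ioi P).indicator F s) P]
      congr 1
      funext s
      by_cases hs : 0 < s
      · rw [indicator_of_mem (by exact hs), indicator_of_mem (by show P < s + P; linarith)]
      · rw [indicator_of_notMem (by exact hs), indicator_of_notMem (by
          show ¬ (P < s + P); push Not at hs ⊢; linarith)]
    rw [← h1, ← integral_const_mul]
    refine setIntegral_congr_fun measurableSet_Ioi fun s _ => ?_
    simp only [hF]
    have h2 : w * (s + P) = w * s + Real.pi := by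
      rw [hP]; field_simp
    rw [h2, Real.sin_add_pi, abs_neg, mul_add, neg_add, Real.exp_add, hq]
    ring
  have hJ : ∫ s in (0 : ℝ)..P, F s = w / (a ^ 2 + w ^ 2) * (1 + q) := by
    have h1 : ∫ s in (0 : ℝ)..P, F s = ∫ s in (0 : ℝ)..P, Real.exp (-(a * s)) * Real.sin (w * s) := by
      refine intervalIntegral.integral_congr fun s hs => ?_
      rw [uIcc_of_le hP0.le] at hs
      simp only [hF]
      rw [abs_of_nonneg]
      apply Real.sin_nonneg_of_nonneg_of_le_pi (mul_nonneg hw.le hs.1)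
      calc w * s ≤ w * P := by gcongr; exact hs.2
        _ = Real.pi := by rw [hP]; field_simp
    rw [h1]
    have hs : ∀ t, HasDerivAt (fun t => Real.sin (w * t)) (w * Real.cos (w * t)) t := fun t => by
      have h1 : HasDerivAt (fun t : ℝ => w * t) w t := by simpa using (hasDerivAt_id t).const_mul w
      exact h1.sin.congr_deriv (by ring)
    have hcs : ∀ t, HasDerivAt (fun t => Real.cos (w * t)) (-(w * Real.sin (w * t))) t :=
      fun t => by
        have h1 : HasDerivAt (fun t : ℝ => w * t) w t := by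
          simpa using (hasDerivAt_id t).const_mul w
        exact h1.cos.congr_deriv (by ring)
    have h2 : ∀ t ∈ uIcc 0 P, HasDerivAt (fun t => -(1 / (a ^ 2 + w ^ 2)) *
        (Real.exp (-(a * t)) * (a * Real.sin (w * t) + w * Real.cos (w * t))))
        (Real.exp (-(a * t)) * Real.sin (w * t)) t := by
      intro t _
      refine (((hasDerivAt_exp_neg_mul a t).fun_mul (((hs t).const_mul a).fun_add
        ((hcs t).const_mul w))).const_mul (-(1 / (a ^ 2 + w ^ 2)))).congr_deriv ?_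
      field_simp
      ring
    rw [intervalIntegral.integral_eq_sub_of_hasDerivAt h2
      (Continuous.intervalIntegrable (by fun_prop) _ _)]
    have h3 : w * P = Real.pi := by rw [hP]; field_simp
    rw [h3]
    simp only [Real.sin_pi, Real.cos_pi, mul_zero, neg_zero, Real.exp_zero, Real.sin_zero,
      Real.cos_zero, ← hq]
    field_simp
    ring
  rw [hshift, hJ] at hsplit
  linarith

/-- The excess estimate, weakly underdamped case. -/
lemma ex_u_weak {a w : ℝ} (ha : 0 < a) (hw : 0 < w) (hwa : w / a ≤ 8 / 5) {S : ℝ} : ∫ t in (0 : ℝ)..S, ex (2 * a) (hu a w) t ≤ 1 / (2 * a) := by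
  refine ex_u_split ha hw fun S' hS' => ?_
  have hT := T₁_nonneg ha hw
  set T := T₁ a w with hTdef
  set R := RR a w with hR
  have hR1 : 1 ≤ R := RR_ge_one a w
  set X := Real.exp (-(a * T)) with hX
  have hX0 : 0 < X := Real.exp_pos _
  set D := √(a ^ 2 + w ^ 2) with hD
  have hD0 : 0 < D := by rw [hD]; positivity
  have hDsq : D ^ 2 = a ^ 2 + w ^ 2 := by rw [hD, Real.sq_sqrt (by positivity)]
  have hRD : R = D / w := by
    rw [hR, RR, hD, ← Real.sqrt_sq hw.le, ← Real.sqrt_div' _ (by positivity)]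
    congr 1
    rw [Real.sqrt_sq hw.le]
    field_simp
    ring
  have hy : a / D ≤ a * T := by
    have h1 : Real.sin (Real.arctan (w / a)) ≤ Real.arctan (w / a) :=
      Real.sin_le (Real.arctan_nonneg.2 (by positivity))
    rw [Real.sin_arctan, ← wT₁ (a := a) hw, ← hTdef] at h1
    have h2 : √(1 + (w / a) ^ 2) = D / a := by
      rw [hD, ← Real.sqrt_sq ha.le, ← Real.sqrt_div' _ (by positivity)]
      congr 1
      rw [Real.sqrt_sq ha.le]
      field_simp
    rw [h2] at h1
    have h3 : w / a / (D / a) = w / D := by field_simp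
    rw [h3, div_le_iff₀ hD0] at h1
    rw [div_le_iff₀ hD0]
    have h4 : 1 ≤ T * D := by
      have h5 : w * 1 ≤ w * (T * D) := by linarith
      exact le_of_mul_le_mul_left h5 hw
    calc a = a * 1 := (mul_one a).symm
      _ ≤ a * (T * D) := by gcongr
      _ = _ := by ring
  have hXy : X * (a / D) ≤ Real.exp (-1) := by
    have h1 : X ≤ Real.exp (-(a / D)) := Real.exp_le_exp.2 (by linarith)
    have h2 : a / D ≤ Real.exp (a / D - 1) := by
      have := Real.add_one_le_exp (a / D - 1)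
      linarith
    calc X * (a / D) ≤ Real.exp (-(a / D)) * Real.exp (a / D - 1) := by gcongr
      _ = Real.exp (-1) := by rw [← Real.exp_add]; congr 1; ring
  set q := Real.exp (-(a * (Real.pi / w))) with hq
  have hq0 : 0 < q := Real.exp_pos _
  have hq1 : q * (2 + Real.exp 1) ≤ Real.exp 1 - 2 := by
    have he := Real.exp_one_gt_d9
    have he2 := Real.exp_one_lt_d9
    have h1 : (1.96 : ℝ) ≤ a * (Real.pi / w) := by
      have h2 : (5 / 8 : ℝ) ≤ a / w := by
        rw [div_le_iff₀ ha] at hwa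
        rw [le_div_iff₀ hw]
        linarith
      calc (1.96 : ℝ) ≤ 5 / 8 * Real.pi := by nlinarith [Real.pi_gt_d2]
        _ ≤ a / w * Real.pi := by
          have := Real.pi_pos
          gcongr
        _ = a * (Real.pi / w) := by ring
    have h2 : q ≤ Real.exp (-1.96) := Real.exp_le_exp.2 (by linarith)
    have h3 : Real.exp (-1.96) * Real.exp 1.96 = 1 := by rw [← Real.exp_add]; norm_num
    have h4 : (7 : ℝ) ≤ Real.exp 1.96 := by
      have h5 : Real.exp 1.96 = Real.exp 1 * Real.exp 1 * Real.exp (-0.04) := by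
        rw [← Real.exp_add, ← Real.exp_add]; norm_num
      have h6 : (0.96 : ℝ) ≤ Real.exp (-0.04) := by
        have := Real.add_one_le_exp (-0.04 : ℝ)
        norm_num at this ⊢
        linarith
      rw [h5]
      nlinarith [mul_pos (Real.exp_pos 1) (Real.exp_pos 1)]
    have h5 : Real.exp (-1.96) ≤ 1 / 7 := by
      rw [le_div_iff₀ (by norm_num)]
      calc Real.exp (-1.96) * 7 ≤ Real.exp (-1.96) * Real.exp 1.96 := by gcongr
        _ = 1 := h3
    nlinarith
  have hq2 : q < 1 := by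
    have := Real.exp_pos 1
    nlinarith
  obtain ⟨hint, hI⟩ := integral_abs_sin ha hw
  rw [← hq] at hI
  set I := ∫ s in Ioi (0 : ℝ), Real.exp (-(a * s)) * |Real.sin (w * s)| with hIdef
  -- comparison
  have h1 : ∫ t in T..S', ex (2 * a) (hu a w) t ≤ R * X * I := by
    have hc := ex_cont (c := 2 * a) (ker_u (a := a) hw).cont_h
    have h2 : ∫ t in T..S', ex (2 * a) (hu a w) t =
        ∫ s in (0 : ℝ)..(S' - T), ex (2 * a) (hu a w) (s + T) := by
      rw [intervalIntegral.integral_comp_add_right (fun s => ex (2 * a) (hu a w) s)]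
      rw [zero_add, sub_add_cancel]
    rw [h2]
    have h3 : ∀ s ∈ Icc 0 (S' - T), ex (2 * a) (hu a w) (s + T) ≤
        R * X * (Real.exp (-(a * s)) * |Real.sin (w * s)|) := by
      intro s _
      have h4 : |hu a w (s + T)| = R * X * (Real.exp (-(a * s)) * |Real.sin (w * s)|) := by
        rw [hu_eq ha hw, ← hTdef]
        have h5 : w * (T - (s + T)) = -(w * s) := by ring
        rw [h5, Real.sin_neg, mul_neg, abs_neg, abs_mul, abs_of_nonneg (by positivity), mul_add,
          neg_add, Real.exp_add, hX]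
        ring
      unfold ex
      apply max_le
      · rw [h4]
        have := Real.exp_pos (-(2 * a * (s + T)))
        linarith
      · positivity
    calc ∫ s in (0 : ℝ)..(S' - T), ex (2 * a) (hu a w) (s + T) ≤
        ∫ s in (0 : ℝ)..(S' - T), R * X * (Real.exp (-(a * s)) * |Real.sin (w * s)|) := by
          apply intervalIntegral.integral_mono_on (by linarith)
          · exact Continuous.intervalIntegrable (by fun_prop) _ _
          · exact Continuous.intervalIntegrable (by fun_prop) _ _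
          · exact h3
      _ = R * X * ∫ s in (0 : ℝ)..(S' - T), Real.exp (-(a * s)) * |Real.sin (w * s)| := by
          rw [intervalIntegral.integral_const_mul]
      _ ≤ R * X * I := by
          have h5 : ∫ s in (0 : ℝ)..(S' - T), Real.exp (-(a * s)) * |Real.sin (w * s)| ≤ I := by
            rw [intervalIntegral.integral_of_le (by linarith), hIdef]
            exact setIntegral_mono_set hint (Eventually.of_forall fun s => by positivity)
              (LE.le.eventuallyLE (Ioc_subset_Ioi_self : Ioc (0 : ℝ) (S' - T) ⊆ Ioi 0))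
          gcongr
  refine h1.trans ?_
  have hI2 : I = w / D ^ 2 * (1 + q) / (1 - q) := by
    rw [eq_div_iff (by linarith), hI, hDsq]
  have h6 : R * X * I = 1 / a * (X * (a / D) * ((1 + q) / (1 - q))) := by
    rw [hI2, hRD]
    have : 1 - q ≠ 0 := by linarith
    field_simp
  rw [h6]
  have h7 : X * (a / D) * ((1 + q) / (1 - q)) ≤ 1 / 2 := by
    have h8 : (1 + q) / (1 - q) ≤ Real.exp 1 / 2 := by
      rw [div_le_div_iff₀ (by linarith) (by norm_num)]
      linarith
    calc X * (a / D) * ((1 + q) / (1 - q)) ≤ Real.exp (-1) * (Real.exp 1 / 2) := by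
          have : 0 ≤ (1 + q) / (1 - q) := div_nonneg (by linarith) (by linarith)
          gcongr
      _ = 1 / 2 := by rw [← mul_div_assoc, ← Real.exp_add]; norm_num
  calc 1 / a * (X * (a / D) * ((1 + q) / (1 - q))) ≤ 1 / a * (1 / 2) := by gcongr
    _ = 1 / (2 * a) := by field_simp

/-- Existence of the kernel with the sharp excess estimate. -/
lemma exists_ker {c lam : ℝ} (hc : 0 < c) (hlam : 0 < lam) : ∃ g h, Ker c lam g h ∧
    Tendsto g atTop (𝓝 0) ∧ Tendsto h atTop (𝓝 0) ∧
    ∀ S, 0 ≤ S → ∫ t in (0 : ℝ)..S, ex c h t ≤ 1 / c := by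
  set a := c / 2 with ha
  have ha0 : 0 < a := by positivity
  have hca : c = 2 * a := by rw [ha]; ring
  rcases lt_trichotomy (a ^ 2) lam with h | h | h
  · set w := √(lam - a ^ 2) with hw
    have hw0 : 0 < w := Real.sqrt_pos.2 (by linarith)
    have hw2 : w ^ 2 = lam - a ^ 2 := Real.sq_sqrt (by linarith)
    have hlam' : lam = a ^ 2 + w ^ 2 := by rw [hw2]; ring
    refine ⟨gu a w, hu a w, ?_, tendsto_gu ha0 hw0, tendsto_hu ha0 hw0, fun S hS => ?_⟩
    · rw [hca, hlam']
      exact ker_u hw0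
    · rw [hca]
      rcases le_total (w / a) (8 / 5) with h1 | h1
      · exact ex_u_weak ha0 hw0 h1
      · exact ex_u_strong ha0 hw0 h1
  · have hk := ker_c a
    rw [← hca, h] at hk
    refine ⟨_, _, hk, tendsto_gc ha0, tendsto_hc ha0, fun S hS => ?_⟩
    exact hk.ex_le_of_nonneg hc hlam.le hS fun t ht => by positivity
  · set σ := √(a ^ 2 - lam) with hσ
    have hσ0 : 0 < σ := Real.sqrt_pos.2 (by linarith)
    have hσ2 : σ ^ 2 = a ^ 2 - lam := Real.sq_sqrt (by linarith)
    have hσa : σ < a := by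
      apply lt_of_pow_lt_pow_left₀ 2 ha0.le
      rw [hσ2]; linarith
    have h12 : a - σ < a + σ := by linarith
    have hk := ker_o h12
    have e1 : a - σ + (a + σ) = c := by rw [hca]; ring
    have e2 : (a - σ) * (a + σ) = lam := by nlinarith
    rw [e1, e2] at hk
    refine ⟨_, _, hk, tendsto_go (by linarith) (by linarith),
      tendsto_ho (by linarith) (by linarith), fun S hS => ?_⟩
    exact hk.ex_le_of_nonneg hc hlam.le hS fun t ht => go_nonneg h12 ht

/-! ### The damped system -/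

/-- `ℝᵈ`. -/
abbrev E (d : ℕ) := EuclideanSpace ℝ (Fin d)

variable {d : ℕ}

/-- `u` is a `C¹` function on `[0, ∞)` with locally absolutely continuous derivative `v = u'`
which satisfies `u'' + c u' + A u = f` almost everywhere. -/
structure IsSolution (A : Matrix (Fin d) (Fin d) ℝ) (c : ℝ) (f u v : ℝ → E d) : Prop where
  deriv : ∀ t, 0 ≤ t → HasDerivWithinAt u (v t) (Ici 0) t
  ac : ∀ T, 0 ≤ T → AbsolutelyContinuousOnInterval v 0 T
  eq : ∀ᵐ t : ℝ, 0 < t → HasDerivAt v (f t - c • v t - A.toEuclideanLin (u t)) t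

/-- The essential upper limit of `|f(t)|` as `t → ∞`. -/
noncomputable def essLimsup (f : ℝ → E d) : ℝ≥0∞ :=
  limsup (fun t => ‖f t‖ₑ) (ae (volume : Measure ℝ) ⊓ atTop)

/-- The constant `K` is admissible for `A` and `c`. -/
def Admissible (A : Matrix (Fin d) (Fin d) ℝ) (c K : ℝ) : Prop :=
  ∀ f u v : ℝ → E d, (∀ T, 0 ≤ T → IntegrableOn f (Icc 0 T)) → essLimsup f < ∞ →
    IsSolution A c f u v → limsup (fun t => ‖v t‖ₑ) atTop ≤ ENNReal.ofReal K * essLimsup f

/-- The sharp constant `K(A, c)`. -/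
noncomputable def KAc (A : Matrix (Fin d) (Fin d) ℝ) (c : ℝ) : ℝ :=
  sInf {K | 0 ≤ K ∧ Admissible A c K}

/-- Variation of constants. -/
lemma duhamel {c lam : ℝ} {g h : ℝ → ℝ} (k : Ker c lam g h) {w v f : ℝ → ℝ} {a t : ℝ}
    (hat : a ≤ t) (hw : ∀ s ∈ Icc a t, HasDerivWithinAt w (v s) (Icc a t) s)
    (hv : AbsolutelyContinuousOnInterval v a t)
    (he : ∀ᵐ s : ℝ, s ∈ Ioo a t → HasDerivAt v (f s - c * v s - lam * w s) s) :
    v t = h (t - a) * v a - lam * (g (t - a) * w a) + ∫ s in a..t, h (t - s) * f s := by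
  have hvc : ContinuousOn v (Icc a t) := by
    have := hv.continuousOn
    rwa [uIcc_of_le hat] at this
  have hwac : AbsolutelyContinuousOnInterval w a t := by
    obtain ⟨C, hC⟩ := isCompact_Icc.exists_bound_of_continuousOn hvc
    have hlip : LipschitzOnWith (Real.toNNReal C) w (Icc a t) := by
      refine Convex.lipschitzOnWith_of_nnnorm_hasDerivWithin_le (convex_Icc a t) hw fun s hs => ?_
      rw [← NNReal.coe_le_coe, coe_nnnorm]
      exact (hC s hs).trans (Real.le_coe_toNNReal C)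
    rw [← uIcc_of_le hat] at hlip
    exact hlip.absolutelyContinuousOnInterval
  have hdg : ∀ s, HasDerivAt (fun s => g (t - s)) (-(h (t - s))) s := fun s =>
    ((k.dg (t - s)).scomp s ((hasDerivAt_id s).const_sub t)).congr_deriv (by simp)
  have hdh : ∀ s, HasDerivAt (fun s => h (t - s)) (c * h (t - s) + lam * g (t - s)) s := fun s =>
    ((k.dh (t - s)).scomp s ((hasDerivAt_id s).const_sub t)).congr_deriv (by simp; ring)
  have hcg := k.cont_g
  have hch := k.cont_h
  have hgac : AbsolutelyContinuousOnInterval (fun s => g (t - s)) a t := by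
    apply ContDiffOn.absolutelyContinuousOnInterval
    apply ContDiff.contDiffOn
    rw [contDiff_one_iff_deriv]
    refine ⟨fun s => (hdg s).differentiableAt, ?_⟩
    have : deriv (fun s => g (t - s)) = fun s => -(h (t - s)) := funext fun s => (hdg s).deriv
    rw [this]
    fun_prop
  have hhac : AbsolutelyContinuousOnInterval (fun s => h (t - s)) a t := by
    apply ContDiffOn.absolutelyContinuousOnInterval
    apply ContDiff.contDiffOn
    rw [contDiff_one_iff_deriv]
    refine ⟨fun s => (hdh s).differentiableAt, ?_⟩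
    have : deriv (fun s => h (t - s)) = fun s => c * h (t - s) + lam * g (t - s) :=
      funext fun s => (hdh s).deriv
    rw [this]
    fun_prop
  have hac : AbsolutelyContinuousOnInterval
      (fun s => h (t - s) * v s - lam * (g (t - s) * w s)) a t :=
    (hhac.fun_mul hv).fun_sub ((hgac.fun_mul hwac).const_mul lam)
  have h1 := hac.integral_deriv_eq_sub
  have h2 : ∫ s in a..t, deriv (fun s => h (t - s) * v s - lam * (g (t - s) * w s)) s =
      ∫ s in a..t, h (t - s) * f s := by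
    apply intervalIntegral.integral_congr_ae
    rw [uIoc_of_le hat]
    have hne : ∀ᵐ s : ℝ, s ≠ t := by simp [ae_iff, measure_singleton]
    filter_upwards [he, hne] with s hs hst hmem
    have hs' : s ∈ Ioo a t := ⟨hmem.1, lt_of_le_of_ne hmem.2 hst⟩
    have d1 := hs hs'
    have d2 : HasDerivAt w (v s) s :=
      (hw s (Ioo_subset_Icc_self hs')).hasDerivAt (Icc_mem_nhds hs'.1 hs'.2)
    have d3 := ((hdh s).fun_mul d1).fun_sub (((hdg s).fun_mul d2).const_mul lam)
    rw [d3.deriv]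
    ring
  rw [h2] at h1
  simp only [sub_self, k.h0, k.g0, one_mul, zero_mul, mul_zero, sub_zero] at h1
  linarith

/-! ### The upper bound -/

/-- The clipped kernel. -/
noncomputable def clip (c : ℝ) (h : ℝ → ℝ) (t : ℝ) : ℝ :=
  max (-Real.exp (-(c * t))) (min (Real.exp (-(c * t))) (h t))

lemma clip_abs (c : ℝ) (h : ℝ → ℝ) (t : ℝ) : |clip c h t| ≤ Real.exp (-(c * t)) := by
  have h0 := Real.exp_pos (-(c * t))
  unfold clip
  rw [abs_le]
  exact ⟨le_max_left _ _, max_le (by linarith) (min_le_left _ _)⟩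

lemma clip_sub (c : ℝ) (h : ℝ → ℝ) (t : ℝ) : |h t - clip c h t| ≤ ex c h t := by
  have h0 := Real.exp_pos (-(c * t))
  unfold clip ex
  rcases le_total (h t) (-Real.exp (-(c * t))) with h1 | h1
  · rw [min_eq_right (by linarith), max_eq_left h1]
    refine le_trans ?_ (le_max_left _ _)
    rw [abs_of_nonpos (by linarith : h t - -Real.exp (-(c * t)) ≤ 0),
      abs_of_nonpos (by linarith : h t ≤ 0)]
    linarith
  · rcases le_total (h t) (Real.exp (-(c * t))) with h2 | h2
    · rw [min_eq_right h2, max_eq_right h1, sub_self, abs_zero]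
      exact le_max_right _ _
    · rw [min_eq_left h2, max_eq_right (by linarith)]
      refine le_trans ?_ (le_max_left _ _)
      rw [abs_of_nonneg (by linarith : 0 ≤ h t - Real.exp (-(c * t))),
        abs_of_nonneg (by linarith : 0 ≤ h t)]

lemma clip_cont {c : ℝ} {h : ℝ → ℝ} (hh : Continuous h) : Continuous (clip c h) := by
  unfold clip
  fun_prop

lemma norm_comb (b : OrthonormalBasis (Fin d) ℝ (E d)) (x : Fin d → ℝ) :
    ‖∑ j, x j • b j‖ = √(∑ j, x j ^ 2) := by
  rw [← Real.sqrt_sq (norm_nonneg _), ← real_inner_self_eq_norm_sq,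
    b.orthonormal.inner_sum x x Finset.univ]
  congr 1
  refine Finset.sum_congr rfl fun j _ => ?_
  simp [sq]

lemma norm_comb_le (b : OrthonormalBasis (Fin d) ℝ (E d)) {x : Fin d → ℝ} {M : ℝ} (hM : 0 ≤ M)
    (hx : ∀ j, |x j| ≤ M) : ‖∑ j, x j • b j‖ ≤ √d * M := by
  rw [norm_comb]
  have h1 : ∑ j, x j ^ 2 ≤ d * M ^ 2 := by
    calc ∑ j, x j ^ 2 ≤ ∑ _j : Fin d, M ^ 2 := Finset.sum_le_sum fun j _ => by
          rw [← sq_abs]
          have := hx j
          gcongr
      _ = d * M ^ 2 := by simp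
  calc √(∑ j, x j ^ 2) ≤ √(d * M ^ 2) := Real.sqrt_le_sqrt h1
    _ = √d * M := by rw [Real.sqrt_mul (Nat.cast_nonneg d), Real.sqrt_sq hM]

lemma norm_eq_comb (b : OrthonormalBasis (Fin d) ℝ (E d)) (y : E d) :
    ‖y‖ = √(∑ j, (inner ℝ (b j) y) ^ 2) := by
  rw [← norm_comb b, b.sum_repr']

/-- The main upper estimate. -/
lemma upper {A : Matrix (Fin d) (Fin d) ℝ} (hA : A.PosDef) {c : ℝ} (hc : 0 < c)
    {f u v : ℝ → E d} (hf : ∀ T, 0 ≤ T → IntegrableOn f (Icc 0 T)) (hs : IsSolution A c f u v)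
    {G T₀ : ℝ} (hG : 0 ≤ G) (hT₀ : 0 ≤ T₀) (hbd : ∀ᵐ t : ℝ, T₀ ≤ t → ‖f t‖ ≤ G) :
    ∃ R : ℝ → ℝ, Tendsto R atTop (𝓝 0) ∧ ∀ t, T₀ ≤ t → ‖v t‖ ≤ R t + (1 + √d) / c * G := by
  set b := hA.1.eigenvectorBasis with hb
  set lam := hA.1.eigenvalues with hlam
  have hlam0 : ∀ j, 0 < lam j := hA.eigenvalues_pos
  choose g h hk hg0 hh0 hex using fun j => exists_ker hc (hlam0 j)
  have hAinner : ∀ j (y : E d), inner ℝ (b j) (A.toEuclideanLin y) = lam j * inner ℝ (b j) y := by
    intro j y
    have hsym := Matrix.isSymmetric_toEuclideanLin_iff.mpr hA.1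
    rw [← hsym (b j) y]
    have h1 : A.toEuclideanLin (b j) = lam j • b j := by
      have := hA.1.mulVec_eigenvectorBasis j
      rw [Matrix.toLpLin_apply]
      apply (WithLp.ofLp_injective 2)
      exact this
    rw [h1, real_inner_smul_left]
  -- components
  have hD : ∀ j (t : ℝ), T₀ ≤ t → inner ℝ (b j) (v t) =
      (h j (t - T₀) * inner ℝ (b j) (v T₀) - lam j * (g j (t - T₀) * inner ℝ (b j) (u T₀))) +
      ∫ s in T₀..t, h j (t - s) * inner ℝ (b j) (f s) := by
    intro j t ht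
    refine duhamel (hk j) (w := fun s => inner ℝ (b j) (u s)) (v := fun s => inner ℝ (b j) (v s))
      ht ?_ ?_ ?_
    · intro s hs'
      have h1 := (hs.deriv s (hT₀.trans hs'.1)).mono (fun x hx => hT₀.trans hx.1 :
        Icc T₀ t ⊆ Ici 0)
      exact (innerSL ℝ (b j)).hasFDerivAt.comp_hasDerivWithinAt s h1
    · have h1 := (hs.ac t (hT₀.trans ht)).mono (c := T₀) (d := t) (by
        rw [uIcc_of_le ht, uIcc_of_le (hT₀.trans ht)]
        exact Icc_subset_Icc_left hT₀)
      exact Q64.AC.comp (g := fun y => inner ℝ (b j) y) (S := univ)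
        ((innerSL ℝ (b j)).lipschitz.lipschitzOnWith) h1 fun _ _ => mem_univ _
    · filter_upwards [hs.eq] with s hs1 hs2
      have h1 := (innerSL ℝ (b j)).hasFDerivAt.comp_hasDerivAt s (hs1 (lt_of_le_of_lt hT₀ hs2.1))
      refine h1.congr_deriv ?_
      rw [innerSL_apply_apply, inner_sub_right, inner_sub_right, hAinner, real_inner_smul_right]
  have hfi : ∀ t, T₀ ≤ t → IntervalIntegrable f volume T₀ t := by
    intro t ht
    rw [intervalIntegrable_iff_integrableOn_Icc_of_le ht]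
    exact (hf t (hT₀.trans ht)).mono_set (Icc_subset_Icc_left hT₀)
  have hfj : ∀ j t, T₀ ≤ t → IntervalIntegrable (fun s => inner ℝ (b j) (f s)) volume T₀ t := by
    intro j t ht
    have h1 := hfi t ht
    exact ⟨(innerSL ℝ (b j)).integrable_comp h1.1, (innerSL ℝ (b j)).integrable_comp h1.2⟩
  refine ⟨fun t => √d * ∑ j, |h j (t - T₀) * inner ℝ (b j) (v T₀) -
    lam j * (g j (t - T₀) * inner ℝ (b j) (u T₀))|, ?_, fun t ht => ?_⟩
  · have hsh : Tendsto (fun t : ℝ => t - T₀) atTop atTop := tendsto_atTop_add_const_right _ _ tendsto_id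
    have h1 : ∀ j, Tendsto (fun t => |h j (t - T₀) * inner ℝ (b j) (v T₀) -
        lam j * (g j (t - T₀) * inner ℝ (b j) (u T₀))|) atTop (𝓝 0) := by
      intro j
      have h2 := (((hh0 j).comp hsh).mul_const (inner ℝ (b j) (v T₀))).sub
        ((((hg0 j).comp hsh).mul_const (inner ℝ (b j) (u T₀))).const_mul (lam j))
      have h3 := h2.abs
      simpa using h3
    have h2 := (tendsto_finsetSum Finset.univ fun j _ => h1 j).const_mul √d
    simpa using h2
  · -- decomposition
    set r : Fin d → ℝ := fun j => h j (t - T₀) * inner ℝ (b j) (v T₀) -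
      lam j * (g j (t - T₀) * inner ℝ (b j) (u T₀)) with hr
    set P : Fin d → ℝ := fun j => ∫ s in T₀..t, clip c (h j) (t - s) * inner ℝ (b j) (f s) with hP
    set Q : Fin d → ℝ := fun j => ∫ s in T₀..t, (h j (t - s) - clip c (h j) (t - s)) *
      inner ℝ (b j) (f s) with hQ
    have hcl : ∀ j, Continuous fun s => clip c (h j) (t - s) := fun j =>
      (clip_cont (hk j).cont_h).comp (continuous_const.sub continuous_id)
    have hhc : ∀ j, Continuous fun s => h j (t - s) := fun j =>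
      (hk j).cont_h.comp (continuous_const.sub continuous_id)
    have hPi : ∀ j, IntervalIntegrable (fun s => clip c (h j) (t - s) * inner ℝ (b j) (f s))
        volume T₀ t := fun j => (hfj j t ht).continuousOn_mul (hcl j).continuousOn
    have hQi : ∀ j, IntervalIntegrable (fun s => (h j (t - s) - clip c (h j) (t - s)) *
        inner ℝ (b j) (f s)) volume T₀ t := fun j =>
      (hfj j t ht).continuousOn_mul ((hhc j).sub (hcl j)).continuousOn
    have hPQ : ∀ j, ∫ s in T₀..t, h j (t - s) * inner ℝ (b j) (f s) = P j + Q j := by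
      intro j
      rw [hP, hQ, ← intervalIntegral.integral_add (hPi j) (hQi j)]
      refine intervalIntegral.integral_congr fun s _ => ?_
      ring
    have hvt : v t = ∑ j, r j • b j + ∑ j, P j • b j + ∑ j, Q j • b j := by
      rw [← b.sum_repr' (v t), ← Finset.sum_add_distrib, ← Finset.sum_add_distrib]
      refine Finset.sum_congr rfl fun j _ => ?_
      rw [hD j t ht, hPQ j, ← add_smul, ← add_smul, add_assoc]
    have hfle : ∀ j s, ‖f s‖ ≤ G → |inner ℝ (b j) (f s)| ≤ G := fun j s hs' => by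
      have h1 := abs_real_inner_le_norm (b j) (f s)
      rw [b.norm_eq_one, one_mul] at h1
      exact h1.trans hs'
    have hbd' : ∀ᵐ s : ℝ, s ∈ Ioc T₀ t → ‖f s‖ ≤ G := by
      filter_upwards [hbd] with s h1 h2 using h1 h2.1.le
    have hsub : ∀ F : ℝ → ℝ, ∫ s in T₀..t, F (t - s) = ∫ s in (0 : ℝ)..(t - T₀), F s := by
      intro F
      rw [intervalIntegral.integral_comp_sub_left, sub_self]
    -- the three pieces
    have hn1 : ‖∑ j, r j • b j‖ ≤ √d * ∑ j, |r j| := by
      apply norm_comb_le b (Finset.sum_nonneg fun j _ => abs_nonneg _)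
      intro j
      exact Finset.single_le_sum (f := fun j => |r j|) (fun j _ => abs_nonneg _)
        (Finset.mem_univ j)
    have hn2 : ‖∑ j, P j • b j‖ ≤ 1 / c * G := by
      have e1 : ∑ j, P j • b j = ∫ s in T₀..t, ∑ j, (clip c (h j) (t - s) *
          inner ℝ (b j) (f s)) • b j := by
        rw [intervalIntegral.integral_finsetSum]
        · refine Finset.sum_congr rfl fun j _ => ?_
          rw [intervalIntegral.integral_smul_const]
        · intro j _
          exact ⟨(hPi j).1.smul_const _, (hPi j).2.smul_const _⟩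
      rw [e1]
      have e2 : ‖∫ s in T₀..t, ∑ j, (clip c (h j) (t - s) * inner ℝ (b j) (f s)) • b j‖ ≤
          ∫ s in T₀..t, Real.exp (-(c * (t - s))) * G := by
        apply intervalIntegral.norm_integral_le_of_norm_le ht
        · filter_upwards [hbd'] with s h1 h2
          rw [norm_comb]
          have h3 : ∑ j, (clip c (h j) (t - s) * inner ℝ (b j) (f s)) ^ 2 ≤
              Real.exp (-(c * (t - s))) ^ 2 * ∑ j, (inner ℝ (b j) (f s)) ^ 2 := by
            rw [Finset.mul_sum]
            refine Finset.sum_le_sum fun j _ => ?_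
            rw [mul_pow, ← sq_abs (clip c (h j) (t - s))]
            have := clip_abs c (h j) (t - s)
            gcongr
          calc √(∑ j, (clip c (h j) (t - s) * inner ℝ (b j) (f s)) ^ 2) ≤
              √(Real.exp (-(c * (t - s))) ^ 2 * ∑ j, (inner ℝ (b j) (f s)) ^ 2) :=
                Real.sqrt_le_sqrt h3
            _ = Real.exp (-(c * (t - s))) * ‖f s‖ := by
              rw [Real.sqrt_mul (by positivity), Real.sqrt_sq (Real.exp_pos _).le,
                ← norm_eq_comb]
            _ ≤ Real.exp (-(c * (t - s))) * G := by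
              have := h1 h2
              gcongr
        · exact Continuous.intervalIntegrable (by fun_prop) _ _
      refine e2.trans ?_
      rw [intervalIntegral.integral_mul_const, hsub fun s => Real.exp (-(c * s))]
      have := integral_exp_le hc (sub_nonneg.2 ht)
      gcongr
    have hn3 : ‖∑ j, Q j • b j‖ ≤ √d * (1 / c * G) := by
      apply norm_comb_le b (by positivity)
      intro j
      rw [← Real.norm_eq_abs]
      have e2 : ‖Q j‖ ≤ ∫ s in T₀..t, ex c (h j) (t - s) * G := by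
        apply intervalIntegral.norm_integral_le_of_norm_le ht
        · filter_upwards [hbd'] with s h1 h2
          rw [norm_mul, Real.norm_eq_abs, Real.norm_eq_abs]
          have a1 := clip_sub c (h j) (t - s)
          have a2 := hfle j s (h1 h2)
          have a3 := ex_nonneg c (h j) (t - s)
          gcongr
        · exact Continuous.intervalIntegrable (by
            have := ex_cont (c := c) (hk j).cont_h
            fun_prop) _ _
      refine e2.trans ?_
      rw [intervalIntegral.integral_mul_const, hsub fun s => ex c (h j) s]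
      have := hex j (t - T₀) (sub_nonneg.2 ht)
      gcongr
    rw [hvt]
    have h4 := norm_add_le (∑ j, r j • b j + ∑ j, P j • b j) (∑ j, Q j • b j)
    have h5 := norm_add_le (∑ j, r j • b j) (∑ j, P j • b j)
    have h6 : (1 + √d) / c * G = 1 / c * G + √d * (1 / c * G) := by ring
    rw [h6]
    linarith

/-- `(1 + √d)/c` is admissible. -/
lemma admissible_upper {A : Matrix (Fin d) (Fin d) ℝ} (hA : A.PosDef) {c : ℝ} (hc : 0 < c) :
    Admissible A c ((1 + √d) / c) := by
  intro f u v hf hfin hs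
  set F := essLimsup f with hF
  have hFne : F ≠ ∞ := hfin.ne
  set k := (1 + √d) / c with hk
  have hk0 : 0 ≤ k := by positivity
  have key : ∀ ε : ℝ, 0 < ε → limsup (fun t => ‖v t‖ₑ) atTop ≤
      ENNReal.ofReal (ε + k * (F.toReal + ε)) := by
    intro ε hε
    set G := F.toReal + ε with hG
    have hG0 : 0 ≤ G := by positivity
    have hFG : F < ENNReal.ofReal G := by
      rw [ENNReal.lt_ofReal_iff_toReal_lt hFne]
      linarith
    have h1 : ∀ᶠ t in ae (volume : Measure ℝ) ⊓ atTop, ‖f t‖ₑ < ENNReal.ofReal G :=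
      eventually_lt_of_limsup_lt hFG
    rw [Filter.eventually_inf] at h1
    obtain ⟨S₁, hS₁, S₂, hS₂, hSS⟩ := h1
    obtain ⟨T, hT⟩ := mem_atTop_sets.1 hS₂
    have h2 : ∀ᵐ t : ℝ, max T 0 ≤ t → ‖f t‖ ≤ G := by
      filter_upwards [hS₁] with t ht ht2
      have h3 := hSS t ⟨ht, hT t ((le_max_left _ _).trans ht2)⟩
      have h4 : ‖f t‖ₑ = ENNReal.ofReal ‖f t‖ := (ofReal_norm _).symm
      rw [h4, ENNReal.ofReal_lt_ofReal_iff_of_nonneg (norm_nonneg _)] at h3
      exact h3.le
    obtain ⟨R, hR, hRb⟩ := upper hA hc hf hs hG0 (le_max_right T 0) h2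
    refine limsup_le_of_le ?_ ?_
    · isBoundedDefault
    · filter_upwards [hR.eventually (gt_mem_nhds hε), eventually_ge_atTop (max T 0)] with t h3 h4
      rw [← ofReal_norm]
      apply ENNReal.ofReal_le_ofReal
      have := hRb t h4
      linarith
  have hlim : Tendsto (fun ε : ℝ => ENNReal.ofReal (ε + k * (F.toReal + ε))) (𝓝[>] 0)
      (𝓝 (ENNReal.ofReal (0 + k * (F.toReal + 0)))) := by
    apply (ENNReal.continuous_ofReal.tendsto _).comp
    have : Continuous fun ε : ℝ => ε + k * (F.toReal + ε) := by fun_prop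
    exact (this.tendsto 0).mono_left nhdsWithin_le_nhds
  have h1 : limsup (fun t => ‖v t‖ₑ) atTop ≤ ENNReal.ofReal (0 + k * (F.toReal + 0)) := by
    refine ge_of_tendsto hlim ?_
    filter_upwards [self_mem_nhdsWithin] with ε hε using key ε hε
  rw [zero_add, add_zero, ENNReal.ofReal_mul hk0, ENNReal.ofReal_toReal hFne] at h1
  exact h1

/-! ### The lower bound -/

section Lower

/-- The slow root. -/
noncomputable def r₁ (c lam : ℝ) : ℝ := c / 2 - √(c ^ 2 / 4 - lam)

/-- The fast root. -/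
noncomputable def r₂ (c lam : ℝ) : ℝ := c / 2 + √(c ^ 2 / 4 - lam)

lemma roots {c lam : ℝ} (hc : 0 < c) (hlam : 0 < lam) (h : lam ≤ c ^ 2 / 8) :
    r₁ c lam + r₂ c lam = c ∧ r₁ c lam * r₂ c lam = lam ∧ lam / c ≤ r₁ c lam ∧
    r₁ c lam ≤ 2 * (lam / c) ∧ c / 2 ≤ r₂ c lam - r₁ c lam ∧ r₂ c lam - r₁ c lam ≤ c ∧
    c / 2 ≤ r₂ c lam := by
  have hpos : 0 < c ^ 2 / 4 - lam := by
    have : 0 < c ^ 2 := by positivity
    linarith
  have hs2 : √(c ^ 2 / 4 - lam) ^ 2 = c ^ 2 / 4 - lam := Real.sq_sqrt hpos.le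
  set σ := √(c ^ 2 / 4 - lam) with hσ
  have hσ0 : 0 ≤ σ := Real.sqrt_nonneg _
  have e1 : r₁ c lam = c / 2 - σ := rfl
  have e2 : r₂ c lam = c / 2 + σ := rfl
  have hmul : (c / 2 - σ) * (c / 2 + σ) = lam := by nlinarith
  have hσc : σ ≤ c / 2 := by
    apply le_of_sq_le_sq _ (by positivity)
    rw [hs2]
    nlinarith
  have hr1 : 0 < c / 2 - σ := by
    rcases (sub_nonneg.2 hσc).lt_or_eq with h1 | h1
    · exact h1
    · rw [← h1, zero_mul] at hmul
      linarith
  have hlow : lam / c ≤ c / 2 - σ := by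
    rw [div_le_iff₀ hc, ← hmul]
    gcongr
    linarith
  have hup : c / 2 - σ ≤ 2 * (lam / c) := by
    rw [← mul_div_assoc, le_div_iff₀ hc, ← hmul]
    nlinarith
  have hdiff : c / 2 ≤ (c / 2 + σ) - (c / 2 - σ) := by
    have h1 : 2 * (lam / c) ≤ c / 4 := by
      rw [← mul_div_assoc, div_le_iff₀ hc]
      nlinarith
    linarith
  rw [e1, e2]
  refine ⟨by ring, hmul, hlow, hup, hdiff, by linarith, by linarith⟩

/-- The window boundaries. -/
noncomputable def tau (Λ c θ : ℝ) (k : ℕ) : ℝ := c / θ * Λ ^ (2 * k)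

/-- The eigenvalues. -/
noncomputable def nu (Λ θ : ℝ) (j : ℕ) : ℝ := θ / Λ ^ (2 * j + 1)

/-- The components of the forcing in reversed time. -/
noncomputable def phi (d : ℕ) (Λ c θ : ℝ) (j : ℕ) (t : ℝ) : ℝ :=
  if t ≤ tau Λ c θ 0 then 1 / √d else
    if tau Λ c θ j < t ∧ t ≤ tau Λ c θ (j + 1) then -1 else 0

lemma tau_mono {Λ c θ : ℝ} (hΛ : 1 ≤ Λ) (hc : 0 < c) (hθ : 0 < θ) : Monotone (tau Λ c θ) := by
  intro i j hij
  unfold tau
  gcongr

lemma phi_meas (d : ℕ) (Λ c θ : ℝ) (j : ℕ) : Measurable (phi d Λ c θ j) := by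
  unfold phi
  refine Measurable.ite measurableSet_Iic measurable_const ?_
  exact Measurable.ite measurableSet_Ioc measurable_const measurable_const

lemma phi_sq {d : ℕ} (hd : 1 ≤ d) {Λ c θ : ℝ} (hΛ : 1 ≤ Λ) (hc : 0 < c) (hθ : 0 < θ) (t : ℝ) :
    ∑ j : Fin d, phi d Λ c θ j t ^ 2 ≤ 1 := by
  have hd' : (0 : ℝ) < d := by exact_mod_cast hd
  by_cases h0 : t ≤ tau Λ c θ 0
  · have : ∀ j : Fin d, phi d Λ c θ j t ^ 2 = 1 / d := by
      intro j
      simp only [phi, if_pos h0]
      rw [div_pow, Real.sq_sqrt hd'.le, one_pow]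
    simp_rw [this]
    simp
    try rw [mul_inv_cancel₀ hd'.ne']
  · by_cases h1 : ∃ j : Fin d, tau Λ c θ j < t ∧ t ≤ tau Λ c θ (j + 1)
    · obtain ⟨j₀, hj₀⟩ := h1
      rw [Finset.sum_eq_single j₀]
      · simp only [phi, if_neg h0, if_pos hj₀]
        norm_num
      · intro j _ hj
        have : ¬ (tau Λ c θ j < t ∧ t ≤ tau Λ c θ (j + 1)) := by
          rintro ⟨h2, h3⟩
          rcases lt_or_gt_of_ne (fun h => hj (Fin.ext h) : (j : ℕ) ≠ j₀) with h4 | h4
          · have := tau_mono hΛ hc hθ (Nat.succ_le_of_lt h4)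
            have h5 : tau Λ c θ (j + 1) ≤ tau Λ c θ j₀ := this
            linarith [hj₀.1]
          · have h5 : tau Λ c θ (j₀ + 1) ≤ tau Λ c θ j := tau_mono hΛ hc hθ (Nat.succ_le_of_lt h4)
            linarith [hj₀.2]
        simp only [phi, if_neg h0, if_neg this]
        norm_num
      · intro h
        exact absurd (Finset.mem_univ _) h
    · push Not at h1
      have : ∀ j : Fin d, phi d Λ c θ j t ^ 2 = 0 := by
        intro j
        have : ¬ (tau Λ c θ j < t ∧ t ≤ tau Λ c θ (j + 1)) := by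
          rintro ⟨h2, h3⟩
          linarith [h1 j h2]
        simp only [phi, if_neg h0, if_neg this]
        norm_num
      simp_rw [this]
      simp

/-- The forcing, periodic with period `P`. -/
noncomputable def ff (d : ℕ) (Λ c θ P : ℝ) (s : ℝ) : E d :=
  WithLp.toLp 2 fun j : Fin d => phi d Λ c θ j (P * (⌊s / P⌋ + 1) - s)

lemma ff_norm {d : ℕ} (hd : 1 ≤ d) {Λ c θ : ℝ} (hΛ : 1 ≤ Λ) (hc : 0 < c) (hθ : 0 < θ) (P s : ℝ) :
    ‖ff d Λ c θ P s‖ ≤ 1 := by
  rw [EuclideanSpace.norm_eq, Real.sqrt_le_one]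
  have := phi_sq hd hΛ hc hθ (P * (⌊s / P⌋ + 1) - s)
  refine le_trans (le_of_eq ?_) this
  refine Finset.sum_congr rfl fun j _ => ?_
  rw [Real.norm_eq_abs, sq_abs]
  rfl

lemma ff_meas (d : ℕ) (Λ c θ P : ℝ) : Measurable (ff d Λ c θ P) := by
  unfold ff
  apply (WithLp.measurable_toLp 2 (Fin d → ℝ)).comp
  rw [measurable_pi_iff]
  intro j
  apply (phi_meas d Λ c θ j).comp
  have : Measurable fun s : ℝ => ((⌊s / P⌋ : ℤ) : ℝ) :=
    measurable_from_top.comp (Int.measurable_floor.comp (measurable_id.div_const P))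
  fun_prop

lemma ff_local {d : ℕ} {Λ c θ P : ℝ} (hP : 0 < P) (m : ℕ) {t : ℝ} (ht : t ∈ Ioc 0 P)
    (j : Fin d) : ff d Λ c θ P (P * (m + 1) - t) j = phi d Λ c θ j t := by
  have hfl : ⌊(P * ((m : ℝ) + 1) - t) / P⌋ = (m : ℤ) := by
    rw [Int.floor_eq_iff]
    constructor
    · rw [le_div_iff₀ hP]
      push_cast
      nlinarith [ht.2]
    · rw [div_lt_iff₀ hP]
      push_cast
      nlinarith [ht.1]
  show phi d Λ c θ j (P * ((⌊(P * ((m : ℝ) + 1) - t) / P⌋ : ℤ) + 1) - (P * (m + 1) - t)) = _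
  rw [hfl]
  congr 1
  push_cast
  ring

/-- Existence of a solution with zero data for a bounded measurable forcing. -/
lemma exists_solution {d : ℕ} (A : Matrix (Fin d) (Fin d) ℝ) (c : ℝ) {f : ℝ → E d}
    (hf : Measurable f) (hf1 : ∀ t, ‖f t‖ ≤ 1) :
    ∃ u v : ℝ → E d, IsSolution A c f u v ∧ u 0 = 0 ∧ v 0 = 0 := by
  set Φ : ℝ → E d := fun t => ∫ s in (0 : ℝ)..t, f s with hΦ
  have hfi : ∀ a b : ℝ, IntervalIntegrable f volume a b := by
    intro a b
    refine (intervalIntegrable_const (c := (1 : ℝ))).mono_fun' (a := a) (b := b) (μ := volume)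
      hf.aestronglyMeasurable ?_
    exact Eventually.of_forall fun t => hf1 t
  have hΦlip : LipschitzWith 1 Φ := by
    refine LipschitzWith.of_dist_le_mul fun x y => ?_
    rw [dist_eq_norm, hΦ]
    simp only
    rw [intervalIntegral.integral_interval_sub_left (hfi _ _) (hfi _ _)]
    have := intervalIntegral.norm_integral_le_of_norm_le_const (a := y) (b := x) (C := 1)
      (f := f) fun t _ => hf1 t
    rw [NNReal.coe_one, dist_eq_norm, Real.norm_eq_abs]
    exact this
  have hloc : LocallyIntegrable f volume := by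
    rw [locallyIntegrable_iff]
    intro K hK
    exact Measure.integrableOn_of_bounded (M := 1) hK.measure_lt_top.ne hf.aestronglyMeasurable
      (Eventually.of_forall hf1)
  set AL : E d →L[ℝ] E d := LinearMap.toContinuousLinearMap A.toEuclideanLin with hAL
  have hALx : ∀ x, AL x = A.toEuclideanLin x := fun x => rfl
  set L : (E d × E d) →L[ℝ] (E d × E d) :=
    (ContinuousLinearMap.snd ℝ (E d) (E d)).prod (-(c • ContinuousLinearMap.snd ℝ (E d) (E d)) -
      AL.comp (ContinuousLinearMap.fst ℝ (E d) (E d))) with hL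
  have hLx : ∀ x : E d × E d, L x = (x.2, -(c • x.2) - AL x.1) := fun x => rfl
  have hlip : ∀ t, LipschitzWith ‖L‖₊ (fun x : E d × E d => L x + (0, Φ t)) := by
    intro t x y
    rw [edist_add_right]
    exact L.lipschitz x y
  have hcont : Continuous (Function.uncurry fun (t : ℝ) (x : E d × E d) => L x + (0, Φ t)) := by
    have h1 := hΦlip.continuous
    have h2 := L.continuous
    exact (h2.comp continuous_snd).add (continuous_const.prodMk (h1.comp continuous_fst))
  obtain ⟨W, hW0, hW⟩ := Haraux.global_ode _ ‖L‖₊ hlip hcont (0 : E d × E d)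
  set w₁ : ℝ → E d := fun t => (W t).1 with hw₁
  set w₂ : ℝ → E d := fun t => (W t).2 with hw₂
  set v : ℝ → E d := fun t => Φ t - c • w₂ t - AL (w₁ t) with hv
  have hd1 : ∀ t, HasDerivAt w₁ (w₂ t) t := by
    intro t
    have := (ContinuousLinearMap.fst ℝ (E d) (E d)).hasFDerivAt.comp_hasDerivAt t (hW t)
    refine this.congr_deriv ?_
    simp [hLx, hw₂]
  have hd2 : ∀ t, HasDerivAt w₂ (v t) t := by
    intro t
    have := (ContinuousLinearMap.snd ℝ (E d) (E d)).hasFDerivAt.comp_hasDerivAt t (hW t)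
    refine this.congr_deriv ?_
    simp only [ContinuousLinearMap.coe_snd', Prod.snd_add, hLx, hv, hw₁, hw₂]
    abel
  have hc1 : Continuous w₁ := continuous_iff_continuousAt.2 fun t => (hd1 t).continuousAt
  have hc2 : Continuous w₂ := continuous_iff_continuousAt.2 fun t => (hd2 t).continuousAt
  have hcv : Continuous v := by
    have h1 := hΦlip.continuous
    have h2 := AL.continuous
    exact (h1.sub (hc2.const_smul c)).sub (h2.comp hc1)
  have hC1 : ContDiff ℝ 1 w₁ := by
    rw [contDiff_one_iff_deriv]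
    refine ⟨fun s => (hd1 s).differentiableAt, ?_⟩
    rw [show deriv w₁ = w₂ from funext fun s => (hd1 s).deriv]
    exact hc2
  have hC2 : ContDiff ℝ 1 w₂ := by
    rw [contDiff_one_iff_deriv]
    refine ⟨fun s => (hd2 s).differentiableAt, ?_⟩
    rw [show deriv w₂ = v from funext fun s => (hd2 s).deriv]
    exact hcv
  refine ⟨w₂, v, ⟨fun t _ => (hd2 t).hasDerivWithinAt, fun T _ => ?_, ?_⟩, ?_, ?_⟩
  · have a1 : AbsolutelyContinuousOnInterval Φ 0 T :=
      (hΦlip.lipschitzOnWith (s := uIcc 0 T)).absolutelyContinuousOnInterval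
    have a2 : AbsolutelyContinuousOnInterval w₂ 0 T :=
      hC2.contDiffOn.absolutelyContinuousOnInterval
    have a3 : AbsolutelyContinuousOnInterval (fun t => AL (w₁ t)) 0 T :=
      (AL.contDiff.comp hC1).contDiffOn.absolutelyContinuousOnInterval
    exact (a1.fun_sub (a2.const_smul c)).fun_sub a3
  · filter_upwards [LocallyIntegrable.ae_hasDerivAt_integral hloc] with t ht _
    have b1 : HasDerivAt Φ (f t) t := ht 0
    have b2 : HasDerivAt (fun t => AL (w₁ t)) (AL (w₂ t)) t := AL.hasFDerivAt.comp_hasDerivAt t (hd1 t)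
    have b3 := (b1.fun_sub ((hd2 t).const_smul c)).fun_sub b2
    exact b3
  · simp [hw₂, hW0]
  · simp [hv, hw₁, hw₂, hW0, hΦ]

lemma phi_bdd {d : ℕ} (hd : 1 ≤ d) (Λ c θ : ℝ) (j : ℕ) (t : ℝ) : |phi d Λ c θ j t| ≤ 1 := by
  have hd' : (1 : ℝ) ≤ d := by exact_mod_cast hd
  unfold phi
  split_ifs
  · rw [abs_of_nonneg (by positivity), div_le_one (by positivity)]
    exact Real.one_le_sqrt.2 hd'
  · norm_num
  · norm_num

lemma exp_le_inv {x y : ℝ} (hy : 0 < y) (h : y ≤ x) : Real.exp (-x) ≤ 1 / y := by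
  rw [Real.exp_neg, inv_eq_one_div]
  apply one_div_le_one_div_of_le hy
  have := Real.add_one_le_exp x
  linarith

lemma nu_le {Λ c θ : ℝ} (hΛ : 3 ≤ Λ) (hθ : 0 < θ) (hθc : θ ≤ c ^ 2 / (2 * Λ)) (j : ℕ) :
    nu Λ θ j ≤ c ^ 2 / 8 := by
  have hΛ0 : 0 < Λ := by linarith
  have h1 : nu Λ θ j ≤ θ / Λ := by
    unfold nu
    gcongr
    calc Λ = Λ ^ 1 := (pow_one Λ).symm
      _ ≤ Λ ^ (2 * (j : ℕ) + 1) := pow_le_pow_right₀ (by linarith) (by omega)
  refine h1.trans ?_
  rw [div_le_iff₀ hΛ0]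
  refine hθc.trans ?_
  rw [div_le_iff₀ (by positivity)]
  have h9 : 9 ≤ Λ ^ 2 := by nlinarith
  nlinarith [mul_nonneg (sq_nonneg c) (by linarith : 0 ≤ Λ ^ 2 - 4)]

/-- Lower bound for one component. -/
lemma lower_comp {d : ℕ} (hd : 1 ≤ d) {Λ c θ P : ℝ} (hΛ : 3 ≤ Λ) (hc : 0 < c) (hθ : 0 < θ)
    (hθc : θ ≤ c ^ 2 / (2 * Λ)) (hP : tau Λ c θ d ≤ P) (j : Fin d)
    (htail : Real.exp (-(r₁ c (nu Λ θ j) * P)) ≤ 1 / (4 * Λ)) {u v : ℝ → E d}
    (hs : IsSolution (Matrix.diagonal fun j : Fin d => nu Λ θ j) c (ff d Λ c θ P) u v)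
    (hu0 : u 0 = 0) (hv0 : v 0 = 0) (m : ℕ) :
    1 / c * (1 / √d * (1 - 3 / Λ) + (1 - 6 / Λ)) ≤ v (P * (m + 1)) j := by
  have hΛ0 : 0 < Λ := by linarith
  set lam := nu Λ θ j with hlam
  have hlam0 : 0 < lam := by rw [hlam, nu]; positivity
  have hlam8 : lam ≤ c ^ 2 / 8 := nu_le hΛ hθ hθc j
  obtain ⟨e1, e2, e3, e4, e5, e6, e7⟩ := roots hc hlam0 hlam8
  set m₁ := r₁ c lam with hm₁
  set m₂ := r₂ c lam with hm₂
  have hm1 : 0 < m₁ := lt_of_lt_of_le (by positivity) e3
  have h12 : m₁ < m₂ := by linarith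
  have k := ker_o h12
  rw [e1, e2] at k
  have hτ0 : ∀ i, 0 < tau Λ c θ i := fun i => by unfold tau; positivity
  have hτm := tau_mono (Λ := Λ) (c := c) (θ := θ) (by linarith) hc hθ
  have hP0 : 0 < P := lt_of_lt_of_le (hτ0 d) hP
  set t : ℝ := P * (m + 1) with ht
  have hm0 : (0 : ℝ) ≤ m := Nat.cast_nonneg m
  have hPt : P ≤ t := by rw [ht]; nlinarith
  have ht0 : 0 < t := by linarith
  have hch := k.cont_h
  set f := ff d Λ c θ P with hf
  have hfm : Measurable fun s => f s j := by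
    have := ff_meas d Λ c θ P
    exact (EuclideanSpace.proj (𝕜 := ℝ) j).continuous.measurable.comp this
  have hfb : ∀ s, |f s j| ≤ 1 := fun s => phi_bdd hd Λ c θ j _
  -- Duhamel
  have hDu : v t j = ∫ s in (0 : ℝ)..t, ho m₁ m₂ (t - s) * f s j := by
    have h1 := duhamel k (w := fun s => u s j) (v := fun s => v s j) (f := fun s => f s j)
      (a := 0) (t := t) ht0.le ?_ ?_ ?_
    · simp only [hu0, hv0, PiLp.zero_apply, mul_zero, sub_zero, zero_add] at h1
      exact h1
    · intro s hs'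
      have h2 := (hs.deriv s hs'.1).mono (fun x hx => hx.1 : Icc 0 t ⊆ Ici 0)
      exact (EuclideanSpace.proj (𝕜 := ℝ) j).hasFDerivAt.comp_hasDerivWithinAt s h2
    · exact Q64.AC.comp (g := fun y : E d => y j) (S := univ)
        ((EuclideanSpace.proj (𝕜 := ℝ) j).lipschitz.lipschitzOnWith) (hs.ac t ht0.le)
        fun _ _ => mem_univ _
    · filter_upwards [hs.eq] with s hs1 hs2
      have h2 := (EuclideanSpace.proj (𝕜 := ℝ) j).hasFDerivAt.comp_hasDerivAt s (hs1 hs2.1)
      refine h2.congr_deriv ?_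
      have h3 : (Matrix.diagonal (fun j : Fin d => nu Λ θ j)).toEuclideanLin (u s) j =
          lam * u s j := by
        rw [Matrix.toLpLin_apply]
        simp [Matrix.mulVec_diagonal, hlam]
      show (f s - c • v s -
        (Matrix.diagonal (fun j : Fin d => nu Λ θ j)).toEuclideanLin (u s)) j = _
      rw [PiLp.sub_apply, PiLp.sub_apply, PiLp.smul_apply, h3, smul_eq_mul]
  have hsub : ∫ s in (0 : ℝ)..t, ho m₁ m₂ (t - s) * f s j =
      ∫ s in (0 : ℝ)..t, ho m₁ m₂ s * f (t - s) j := by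
    have h1 := intervalIntegral.integral_comp_sub_left (a := 0) (b := t)
      (fun s => ho m₁ m₂ s * f (t - s) j) t
    simp only [sub_sub_cancel, sub_self, sub_zero] at h1
    exact h1
  have hfi : ∀ a b : ℝ, IntervalIntegrable (fun s => ho m₁ m₂ s * f (t - s) j) volume a b := by
    intro a b
    apply IntervalIntegrable.continuousOn_mul _ hch.continuousOn
    refine (intervalIntegrable_const (c := (1 : ℝ))).mono_fun' (a := a) (b := b) (μ := volume)
      (hfm.comp (measurable_const.sub measurable_id)).aestronglyMeasurable ?_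
    exact Eventually.of_forall fun s => hfb _
  have hφi : ∀ a b : ℝ, IntervalIntegrable (fun s => ho m₁ m₂ s * phi d Λ c θ j s) volume a b := by
    intro a b
    apply IntervalIntegrable.continuousOn_mul _ hch.continuousOn
    refine (intervalIntegrable_const (c := (1 : ℝ))).mono_fun' (a := a) (b := b) (μ := volume)
      (phi_meas d Λ c θ j).aestronglyMeasurable ?_
    exact Eventually.of_forall fun s => phi_bdd hd Λ c θ j _
  have hgint : ∀ a b : ℝ, ∫ s in a..b, ho m₁ m₂ s = go m₁ m₂ b - go m₁ m₂ a := fun a b =>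
    intervalIntegral.integral_eq_sub_of_hasDerivAt (fun s _ => k.dg s)
      (hch.intervalIntegrable _ _)
  -- first part
  have hfirst : ∫ s in (0 : ℝ)..P, ho m₁ m₂ s * f (t - s) j =
      1 / √d * go m₁ m₂ (tau Λ c θ 0) + (go m₁ m₂ (tau Λ c θ j) - go m₁ m₂ (tau Λ c θ (j + 1))) := by
    have h1 : ∫ s in (0 : ℝ)..P, ho m₁ m₂ s * f (t - s) j =
        ∫ s in (0 : ℝ)..P, ho m₁ m₂ s * phi d Λ c θ j s := by
      apply intervalIntegral.integral_congr_ae
      refine Eventually.of_forall fun s hs' => ?_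
      rw [uIoc_of_le hP0.le] at hs'
      rw [ht, hf, ff_local hP0 m hs' j]
    rw [h1]
    have hjd : tau Λ c θ (j + 1) ≤ P := (hτm (Nat.succ_le_of_lt j.2)).trans hP
    have hj1 : tau Λ c θ j ≤ tau Λ c θ (j + 1) := hτm (Nat.le_succ _)
    have hj0 : tau Λ c θ 0 ≤ tau Λ c θ j := hτm (Nat.zero_le _)
    rw [← intervalIntegral.integral_add_adjacent_intervals (hφi 0 (tau Λ c θ 0)) (hφi _ P),
      ← intervalIntegral.integral_add_adjacent_intervals (hφi (tau Λ c θ 0) (tau Λ c θ j))
        (hφi _ P),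
      ← intervalIntegral.integral_add_adjacent_intervals
        (hφi (tau Λ c θ j) (tau Λ c θ (j + 1))) (hφi _ P)]
    have i1 : ∫ s in (0 : ℝ)..(tau Λ c θ 0), ho m₁ m₂ s * phi d Λ c θ j s =
        1 / √d * go m₁ m₂ (tau Λ c θ 0) := by
      have : ∫ s in (0 : ℝ)..(tau Λ c θ 0), ho m₁ m₂ s * phi d Λ c θ j s =
          ∫ s in (0 : ℝ)..(tau Λ c θ 0), 1 / √d * ho m₁ m₂ s := by
        apply intervalIntegral.integral_congr_ae
        refine Eventually.of_forall fun s hs' => ?_
        rw [uIoc_of_le (hτ0 0).le] at hs'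
        rw [phi, if_pos hs'.2]
        ring
      rw [this, intervalIntegral.integral_const_mul, hgint, k.g0, sub_zero]
    have i2 : ∫ s in (tau Λ c θ 0)..(tau Λ c θ j), ho m₁ m₂ s * phi d Λ c θ j s = 0 := by
      have : ∫ s in (tau Λ c θ 0)..(tau Λ c θ j), ho m₁ m₂ s * phi d Λ c θ j s =
          ∫ s in (tau Λ c θ 0)..(tau Λ c θ j), (0 : ℝ) := by
        apply intervalIntegral.integral_congr_ae
        refine Eventually.of_forall fun s hs' => ?_
        rw [uIoc_of_le hj0] at hs'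
        rw [phi, if_neg (not_le.2 hs'.1), if_neg (fun h => absurd h.1 (not_lt.2 hs'.2)), mul_zero]
      rw [this]
      simp
    have i3 : ∫ s in (tau Λ c θ j)..(tau Λ c θ (j + 1)), ho m₁ m₂ s * phi d Λ c θ j s =
        go m₁ m₂ (tau Λ c θ j) - go m₁ m₂ (tau Λ c θ (j + 1)) := by
      have : ∫ s in (tau Λ c θ j)..(tau Λ c θ (j + 1)), ho m₁ m₂ s * phi d Λ c θ j s =
          ∫ s in (tau Λ c θ j)..(tau Λ c θ (j + 1)), -ho m₁ m₂ s := by
        apply intervalIntegral.integral_congr_ae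
        refine Eventually.of_forall fun s hs' => ?_
        rw [uIoc_of_le hj1] at hs'
        rw [phi, if_neg (not_le.2 (lt_of_le_of_lt hj0 hs'.1)), if_pos ⟨hs'.1, hs'.2⟩]
        ring
      rw [this, intervalIntegral.integral_neg, hgint]
      ring
    have i4 : ∫ s in (tau Λ c θ (j + 1))..P, ho m₁ m₂ s * phi d Λ c θ j s = 0 := by
      have : ∫ s in (tau Λ c θ (j + 1))..P, ho m₁ m₂ s * phi d Λ c θ j s =
          ∫ s in (tau Λ c θ (j + 1))..P, (0 : ℝ) := by
        apply intervalIntegral.integral_congr_ae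
        refine Eventually.of_forall fun s hs' => ?_
        rw [uIoc_of_le hjd] at hs'
        rw [phi, if_neg (not_le.2 (lt_of_le_of_lt (hj0.trans hj1) hs'.1)),
          if_neg (fun h => absurd h.2 (not_le.2 hs'.1)), mul_zero]
      rw [this]
      simp
    rw [i1, i2, i3, i4]
    ring
  -- second part
  have hsecond : -(1 / c * (1 / Λ)) ≤ ∫ s in P..t, ho m₁ m₂ s * f (t - s) j := by
    have h1 : ‖∫ s in P..t, ho m₁ m₂ s * f (t - s) j‖ ≤
        ∫ s in P..t, (m₂ * Real.exp (-(m₂ * s)) + m₁ * Real.exp (-(m₁ * s))) / (m₂ - m₁) := by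
      apply intervalIntegral.norm_integral_le_of_norm_le hPt
      · refine Eventually.of_forall fun s _ => ?_
        rw [norm_mul, Real.norm_eq_abs, Real.norm_eq_abs]
        have a1 : |ho m₁ m₂ s| ≤
            (m₂ * Real.exp (-(m₂ * s)) + m₁ * Real.exp (-(m₁ * s))) / (m₂ - m₁) := by
          unfold ho
          rw [abs_div, abs_of_pos (by linarith : 0 < m₂ - m₁)]
          have : 0 < m₂ - m₁ := by linarith
          gcongr
          have b1 : 0 < m₂ * Real.exp (-(m₂ * s)) := by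
            have : 0 < m₂ := by linarith
            positivity
          have b2 : 0 < m₁ * Real.exp (-(m₁ * s)) := by positivity
          rw [abs_le]
          constructor <;> linarith
        calc |ho m₁ m₂ s| * |f (t - s) j| ≤ |ho m₁ m₂ s| * 1 := by
              gcongr
              exact hfb _
          _ ≤ _ := by rw [mul_one]; exact a1
      · exact Continuous.intervalIntegrable (by fun_prop) _ _
    have h2 : ∀ s ∈ uIcc P t, HasDerivAt
        (fun s => -(Real.exp (-(m₂ * s)) + Real.exp (-(m₁ * s))) / (m₂ - m₁))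
        ((m₂ * Real.exp (-(m₂ * s)) + m₁ * Real.exp (-(m₁ * s))) / (m₂ - m₁)) s := by
      intro s _
      refine (((hasDerivAt_exp_neg_mul m₂ s).fun_add
        (hasDerivAt_exp_neg_mul m₁ s)).fun_neg.div_const (m₂ - m₁)).congr_deriv ?_
      ring
    rw [intervalIntegral.integral_eq_sub_of_hasDerivAt h2
      (Continuous.intervalIntegrable (by fun_prop) _ _)] at h1
    have h3 : -(Real.exp (-(m₂ * t)) + Real.exp (-(m₁ * t))) / (m₂ - m₁) -
        -(Real.exp (-(m₂ * P)) + Real.exp (-(m₁ * P))) / (m₂ - m₁) ≤ 1 / c * (1 / Λ) := by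
      have hd0 : 0 < m₂ - m₁ := by linarith
      have a1 : Real.exp (-(m₂ * P)) ≤ Real.exp (-(m₁ * P)) := by
        apply Real.exp_le_exp.2
        nlinarith
      have a2 := Real.exp_pos (-(m₂ * t))
      have a3 := Real.exp_pos (-(m₁ * t))
      rw [← sub_div]
      rw [div_le_iff₀ hd0]
      have a4 : 1 / c * (1 / Λ) * (c / 2) ≤ 1 / c * (1 / Λ) * (m₂ - m₁) := by gcongr
      have a5 : 1 / c * (1 / Λ) * (c / 2) = 1 / (4 * Λ) + 1 / (4 * Λ) := by
        field_simp
        ring
      linarith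
    have h4 := neg_le_of_abs_le (h1.trans h3)
    exact h4
  -- bounds of `g`
  have hglow : ∀ i : ℕ, i ≤ j → 1 / c * (1 - 3 / Λ) ≤ go m₁ m₂ (tau Λ c θ i) := by
    intro i hi
    have a1 : m₁ * tau Λ c θ i ≤ 2 / Λ := by
      have : Λ ^ (2 * i) * Λ ≤ Λ ^ (2 * (j : ℕ) + 1) := by
        rw [← pow_succ]
        exact pow_le_pow_right₀ (by linarith) (by omega)
      calc m₁ * tau Λ c θ i ≤ 2 * (lam / c) * tau Λ c θ i := by
            have := (hτ0 i).le
            gcongr
        _ = 2 * (Λ ^ (2 * i) / Λ ^ (2 * (j : ℕ) + 1)) := by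
          rw [hlam, nu, tau]
          field_simp
        _ ≤ 2 * (1 / Λ) := by
          apply mul_le_mul_of_nonneg_left _ (by norm_num)
          rw [div_le_div_iff₀ (by positivity) hΛ0, one_mul]
          exact this
        _ = 2 / Λ := by ring
    have a2 : Λ ≤ m₂ * tau Λ c θ i := by
      have b1 : c / θ ≤ tau Λ c θ i := by
        unfold tau
        have : 1 ≤ Λ ^ (2 * i) := one_le_pow₀ (by linarith)
        have h0 : 0 < c / θ := by positivity
        nlinarith
      have b2 : Λ ≤ c / 2 * (c / θ) := by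
        rw [le_div_iff₀ (by positivity)] at hθc
        have : c / 2 * (c / θ) = c ^ 2 / (2 * θ) := by field_simp
        rw [this, le_div_iff₀ (by positivity)]
        linarith
      have b3 : 0 ≤ m₂ := by linarith
      calc Λ ≤ c / 2 * (c / θ) := b2
        _ ≤ m₂ * tau Λ c θ i := by gcongr
    have a3 : 1 - 2 / Λ ≤ Real.exp (-(m₁ * tau Λ c θ i)) := by
      have := Real.add_one_le_exp (-(m₁ * tau Λ c θ i))
      linarith
    have a4 : Real.exp (-(m₂ * tau Λ c θ i)) ≤ 1 / Λ := exp_le_inv hΛ0 a2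
    have a5 : 0 ≤ 1 - 3 / Λ := by
      rw [sub_nonneg, div_le_one hΛ0]; exact hΛ
    unfold go
    rw [le_div_iff₀ (by linarith)]
    have a6 : 1 - 3 / Λ ≤ Real.exp (-(m₁ * tau Λ c θ i)) - Real.exp (-(m₂ * tau Λ c θ i)) := by
      have : 3 / Λ = 2 / Λ + 1 / Λ := by ring
      linarith
    calc 1 / c * (1 - 3 / Λ) * (m₂ - m₁) ≤ 1 / c * (1 - 3 / Λ) * c := by gcongr
      _ = 1 - 3 / Λ := by field_simp
      _ ≤ _ := a6
  have hgup : go m₁ m₂ (tau Λ c θ (j + 1)) ≤ 1 / c * (2 / Λ) := by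
    have a1 : Λ ≤ m₁ * tau Λ c θ (j + 1) := by
      calc Λ = lam / c * tau Λ c θ (j + 1) := by
            rw [hlam, nu, tau]
            field_simp
            ring
        _ ≤ m₁ * tau Λ c θ (j + 1) := by
          have := (hτ0 (j + 1)).le
          gcongr
    have a2 : Real.exp (-(m₁ * tau Λ c θ (j + 1))) ≤ 1 / Λ := exp_le_inv hΛ0 a1
    have a3 := Real.exp_pos (-(m₂ * tau Λ c θ (j + 1)))
    unfold go
    rw [div_le_iff₀ (by linarith)]
    calc Real.exp (-(m₁ * tau Λ c θ (j + 1))) - Real.exp (-(m₂ * tau Λ c θ (j + 1))) ≤ 1 / Λ := by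
          linarith
      _ = 1 / c * (2 / Λ) * (c / 2) := by field_simp
      _ ≤ 1 / c * (2 / Λ) * (m₂ - m₁) := by gcongr
  rw [hDu, hsub, ← intervalIntegral.integral_add_adjacent_intervals (hfi 0 P) (hfi P t), hfirst]
  have g1 := hglow 0 (Nat.zero_le _)
  have g2 := hglow j le_rfl
  have g3 : 1 / √d * (1 / c * (1 - 3 / Λ)) ≤ 1 / √d * go m₁ m₂ (tau Λ c θ 0) := by gcongr
  have g4 : 1 / c * (1 / √d * (1 - 3 / Λ) + (1 - 6 / Λ)) =
      1 / √d * (1 / c * (1 - 3 / Λ)) + (1 / c * (1 - 3 / Λ) - 1 / c * (2 / Λ)) -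
        1 / c * (1 / Λ) := by ring
  rw [g4]
  linarith

/-- The lower bound for admissible constants. -/
lemma lower {d : ℕ} (hd : 1 ≤ d) {Λ c θ K : ℝ} (hΛ : 6 < Λ) (hc : 0 < c) (hθ : 0 < θ)
    (hθc : θ ≤ c ^ 2 / (2 * Λ))
    (hK : Admissible (Matrix.diagonal fun j : Fin d => nu Λ θ j) c K) :
    (1 + √d) * (1 - 6 / Λ) ≤ c * K := by
  have hΛ0 : 0 < Λ := by linarith
  have hd' : (1 : ℝ) ≤ d := by exact_mod_cast hd
  have hsd : 0 < √d := by positivity
  -- choice of the period
  have htail : ∀ j : Fin d, ∀ᶠ P in atTop, Real.exp (-(r₁ c (nu Λ θ j) * P)) ≤ 1 / (4 * Λ) := by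
    intro j
    have hlam0 : 0 < nu Λ θ j := by unfold nu; positivity
    have hlam8 : nu Λ θ j ≤ c ^ 2 / 8 := nu_le (by linarith) hθ hθc j
    obtain ⟨-, -, e3, -⟩ := roots hc hlam0 hlam8
    have hpos : 0 < r₁ c (nu Λ θ j) := lt_of_lt_of_le (by positivity) e3
    exact (tendsto_exp_neg_mul hpos).eventually (ge_mem_nhds (by positivity))
  obtain ⟨P, hP1, hP2⟩ := ((eventually_all.2 htail).and
    (eventually_ge_atTop (tau Λ c θ d))).exists
  obtain ⟨u, v, hs, hu0, hv0⟩ := exists_solution (Matrix.diagonal fun j : Fin d => nu Λ θ j) c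
    (ff_meas d Λ c θ P) (ff_norm hd (by linarith : 1 ≤ Λ) hc hθ P)
  have hlimf : essLimsup (ff d Λ c θ P) ≤ 1 := by
    unfold essLimsup
    refine limsup_le_of_le (by isBoundedDefault) (Eventually.of_forall fun t => ?_)
    rw [← ofReal_norm, ← ENNReal.ofReal_one]
    exact ENNReal.ofReal_le_ofReal (ff_norm hd (by linarith) hc hθ P t)
  have hloc : ∀ T : ℝ, 0 ≤ T → IntegrableOn (ff d Λ c θ P) (Icc 0 T) := by
    intro T _
    refine Measure.integrableOn_of_bounded (M := 1) measure_Icc_lt_top.ne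
      (ff_meas d Λ c θ P).aestronglyMeasurable (Eventually.of_forall fun t => ?_)
    exact ff_norm hd (by linarith) hc hθ P t
  have h1 := hK _ u v hloc (lt_of_le_of_lt hlimf (by simp)) hs
  have h2 : limsup (fun t => ‖v t‖ₑ) atTop ≤ ENNReal.ofReal K :=
    h1.trans (by calc ENNReal.ofReal K * essLimsup (ff d Λ c θ P) ≤ ENNReal.ofReal K * 1 := by gcongr
      _ = _ := mul_one _)
  have hP0 : 0 < P := lt_of_lt_of_le (by unfold tau; positivity) hP2
  have hv : ∀ m : ℕ, 1 / c * ((1 + √d) * (1 - 6 / Λ)) ≤ ‖v (P * (m + 1))‖ := by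
    intro m
    have h3 : ∀ j : Fin d, 1 / c * (1 / √d * (1 - 3 / Λ) + (1 - 6 / Λ)) ≤ v (P * (m + 1)) j :=
      fun j => lower_comp hd (by linarith) hc hθ hθc hP2 j (hP1 j) hs hu0 hv0 m
    have h4 : 0 ≤ 1 / c * (1 / √d * (1 - 3 / Λ) + (1 - 6 / Λ)) := by
      have a1 : 0 ≤ 1 - 6 / Λ := by rw [sub_nonneg, div_le_one hΛ0]; exact hΛ.le
      have a2 : 0 ≤ 1 - 3 / Λ := by rw [sub_nonneg, div_le_one hΛ0]; linarith
      positivity
    rw [EuclideanSpace.norm_eq]
    have h5 : d * (1 / c * (1 / √d * (1 - 3 / Λ) + (1 - 6 / Λ))) ^ 2 ≤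
        ∑ j, ‖v (P * (m + 1)) j‖ ^ 2 := by
      calc d * (1 / c * (1 / √d * (1 - 3 / Λ) + (1 - 6 / Λ))) ^ 2 =
          ∑ _j : Fin d, (1 / c * (1 / √d * (1 - 3 / Λ) + (1 - 6 / Λ))) ^ 2 := by simp
        _ ≤ _ := by
          refine Finset.sum_le_sum fun j _ => ?_
          rw [Real.norm_eq_abs, sq_abs]
          have := h3 j
          gcongr
    have h6 : √(d * (1 / c * (1 / √d * (1 - 3 / Λ) + (1 - 6 / Λ))) ^ 2) =
        1 / c * ((1 - 3 / Λ) + √d * (1 - 6 / Λ)) := by
      rw [Real.sqrt_mul (by positivity), Real.sqrt_sq h4]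
      field_simp
    calc 1 / c * ((1 + √d) * (1 - 6 / Λ)) ≤ 1 / c * ((1 - 3 / Λ) + √d * (1 - 6 / Λ)) := by
          have : (1 + √d) * (1 - 6 / Λ) ≤ (1 - 3 / Λ) + √d * (1 - 6 / Λ) := by
            have : 0 ≤ 3 / Λ := by positivity
            have : 6 / Λ = 2 * (3 / Λ) := by ring
            nlinarith
          gcongr
      _ = _ := h6.symm
      _ ≤ _ := Real.sqrt_le_sqrt h5
  have h3 : ENNReal.ofReal (1 / c * ((1 + √d) * (1 - 6 / Λ))) ≤ ENNReal.ofReal K := by
    refine le_trans ?_ h2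
    apply le_limsup_of_frequently_le'
    rw [frequently_atTop]
    intro a
    obtain ⟨m, hm⟩ := exists_nat_ge (a / P)
    refine ⟨P * (m + 1), ?_, ?_⟩
    · rw [div_le_iff₀ hP0] at hm
      nlinarith
    · rw [← ofReal_norm]
      exact ENNReal.ofReal_le_ofReal (hv m)
  have h5 : 0 < 1 - 6 / Λ := by rw [sub_pos, div_lt_one hΛ0]; exact hΛ
  have h6 : 0 < 1 / c * ((1 + √d) * (1 - 6 / Λ)) := by positivity
  have h7 : 1 / c * ((1 + √d) * (1 - 6 / Λ)) ≤ K := by
    by_contra hcon
    push Not at hcon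
    have := (ENNReal.ofReal_lt_ofReal_iff h6).2 hcon
    exact absurd h3 (not_le.2 this)
  calc (1 + √d) * (1 - 6 / Λ) = c * (1 / c * ((1 + √d) * (1 - 6 / Λ))) := by field_simp
    _ ≤ c * K := by gcongr

end Lower

/-! ### The sharp constants -/

/-- The set `{c K(A, c) : A symmetric positive definite}`, whose supremum is `M_d`. -/
def setM (d : ℕ) (c : ℝ) : Set ℝ :=
  {x | ∃ A : Matrix (Fin d) (Fin d) ℝ, A.PosDef ∧ x = c * KAc A c}

/-- The set `{liminf_{c → ∞} c K(A, c) : A symmetric positive definite}`, whose supremum is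
`L_d`. -/
def setL (d : ℕ) : Set ℝ :=
  {x | ∃ A : Matrix (Fin d) (Fin d) ℝ, A.PosDef ∧ x = liminf (fun c => c * KAc A c) atTop}

lemma KAc_nonneg (A : Matrix (Fin d) (Fin d) ℝ) (c : ℝ) : 0 ≤ KAc A c :=
  Real.sInf_nonneg fun _ hK => hK.1

lemma KAc_le {A : Matrix (Fin d) (Fin d) ℝ} (hA : A.PosDef) {c : ℝ} (hc : 0 < c) :
    c * KAc A c ≤ 1 + √d := by
  have h1 : KAc A c ≤ (1 + √d) / c :=
    csInf_le ⟨0, fun _ hK => hK.1⟩ ⟨by positivity, admissible_upper hA hc⟩
  calc c * KAc A c ≤ c * ((1 + √d) / c) := by gcongr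
    _ = 1 + √d := by field_simp

lemma diag_posDef {d : ℕ} {Λ θ : ℝ} (hΛ : 0 < Λ) (hθ : 0 < θ) :
    (Matrix.diagonal fun j : Fin d => nu Λ θ j).PosDef := by
  rw [Matrix.posDef_diagonal_iff]
  intro j
  unfold nu
  positivity

lemma le_KAc {d : ℕ} (hd : 1 ≤ d) {Λ c θ : ℝ} (hΛ : 6 < Λ) (hc : 0 < c) (hθ : 0 < θ)
    (hθc : θ ≤ c ^ 2 / (2 * Λ)) :
    (1 + √d) * (1 - 6 / Λ) ≤ c * KAc (Matrix.diagonal fun j : Fin d => nu Λ θ j) c := by
  have h1 : 1 / c * ((1 + √d) * (1 - 6 / Λ)) ≤
      KAc (Matrix.diagonal fun j : Fin d => nu Λ θ j) c := by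
    refine le_csInf ⟨(1 + √d) / c, by positivity,
      admissible_upper (diag_posDef (by linarith) hθ) hc⟩ fun K hK => ?_
    have h2 := lower hd hΛ hc hθ hθc hK.2
    rw [one_div_mul_eq_div, div_le_iff₀ hc]
    linarith
  calc (1 + √d) * (1 - 6 / Λ) = c * (1 / c * ((1 + √d) * (1 - 6 / Λ))) := by field_simp
    _ ≤ _ := by gcongr

lemma le_of_forall_Λ {a B : ℝ} (h : ∀ Λ : ℝ, 6 < Λ → a * (1 - 6 / Λ) ≤ B) : a ≤ B := by
  have h1 : Tendsto (fun Λ : ℝ => a * (1 - 6 / Λ)) atTop (𝓝 (a * (1 - 0))) :=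
    ((tendsto_const_nhds.div_atTop tendsto_id).const_sub 1).const_mul a
  rw [sub_zero, mul_one] at h1
  refine le_of_tendsto h1 ?_
  filter_upwards [eventually_gt_atTop 6] with Λ hΛ using h Λ hΛ

/-- **Sharp velocity bounds for damped linear oscillators.** `M_d = L_d = 1 + √d`. -/
theorem result (d : ℕ) (hd : 2 ≤ d) :
    (∀ c : ℝ, 0 < c → IsLUB (setM d c) (1 + √d)) ∧ IsLUB (setL d) (1 + √d) := by
  have hd1 : 1 ≤ d := by omega
  refine ⟨fun c hc => ⟨?_, ?_⟩, ?_, ?_⟩
  · rintro x ⟨A, hA, rfl⟩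
    exact KAc_le hA hc
  · intro B hB
    refine le_of_forall_Λ fun Λ hΛ => ?_
    have hθ : 0 < c ^ 2 / (2 * Λ) := by
      have : 0 < Λ := by linarith
      positivity
    exact (le_KAc hd1 hΛ hc hθ le_rfl).trans (hB ⟨_, diag_posDef (by linarith) hθ, rfl⟩)
  · rintro x ⟨A, hA, rfl⟩
    refine liminf_le_of_frequently_le ?_ ?_
    · exact ((eventually_gt_atTop 0).mono fun c hc => KAc_le hA hc).frequently
    · exact isBoundedUnder_of_eventually_ge (a := 0)
        ((eventually_gt_atTop 0).mono fun c hc => mul_nonneg (le_of_lt hc) (KAc_nonneg A c))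
  · intro B hB
    refine le_of_forall_Λ fun Λ hΛ => ?_
    refine le_trans ?_ (hB ⟨_, diag_posDef (Λ := Λ) (by linarith) one_pos, rfl⟩)
    have hΛ0 : 0 < Λ := by linarith
    refine le_liminf_of_le ?_ ?_
    · refine IsBoundedUnder.isCoboundedUnder_ge ?_
      exact isBoundedUnder_of_eventually_le (a := 1 + √d)
        ((eventually_gt_atTop 0).mono fun c hc => KAc_le (diag_posDef hΛ0 one_pos) hc)
    · filter_upwards [eventually_ge_atTop (2 * Λ)] with c hc
      refine le_KAc hd1 hΛ (by linarith) one_pos ?_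
      rw [le_div_iff₀ (by positivity)]
      nlinarith

end Pool.Agent.Results.MP_38ba9c_an.SharpVelocity
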